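import Mathlib

/-!
# The angle rank of a set of complex numbers relative to a number field: definitions
-/

set_option autoImplicit false

namespace Pool.Agent.V5helper90.GT

/-- **The angle rank of `E` relative to the field `L₀` is less than `g`**: in the multiplicative group
generated by the numbers `r / r̄`, `r ∈ E`, `r ≠ 0`, any `g` elements `c 0, ..., c (g - 1)` are
multiplicatively dependent modulo `L₀`, i.e. some product of powers of them, with exponents
which are not all zero, lies in `L₀`. -/
def AngleRankLT (L₀ : IntermediateField ℚ ℂ) (E : Set ℂ) (g : ℕ) : Prop :=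
  ∀ c : Fin g → ℂˣ,
    (∀ j, c j ∈ Subgroup.closure {u : ℂˣ | ∃ r ∈ E, (u : ℂ) = r / (starRingEnd ℂ) r}) →
    ∃ n : Fin g → ℤ, n ≠ 0 ∧ ((∏ j, c j ^ n j : ℂˣ) : ℂ) ∈ L₀

end Pool.Agent.V5helper90.GT
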