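import Mathlib
import Pool.Agent.V5helper90.GT.Defs3

/-!
# Polynomials whose roots have no relations with a family of abelian varieties: definition
-/

set_option autoImplicit false

open Polynomial

namespace Pool.Agent.V5helper90.GT

/-- The rational polynomial `f` is **free** of the abelian varieties `A i` of dimension `g i` with the
Frobenius polynomials `P i`, relative to the number field `L₀`: for each `i`

* the angle rank of the set of the complex roots of `f` relative to `L₀` is less than `g i`, or
* for each root `x ≠ 0` of `f` and each root `z` of `P i` some automorphism of the field of complex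
  numbers fixes a positive power of `x` and sends `z` to its complex conjugate. -/
def IsFree {κ : Type} (L₀ : IntermediateField ℚ ℂ) (g : κ → ℕ) (P : κ → ℤ[X]) (f : ℚ[X]) : Prop :=
  ∀ i, AngleRankLT L₀ {x : ℂ | aeval x f = 0} (g i) ∨
    ∀ x : ℂ, aeval x f = 0 → x ≠ 0 → ∀ z : ℂ, aeval z (P i) = 0 →
      ∃ (τ : ℂ ≃+* ℂ) (m : ℕ), 0 < m ∧ τ (x ^ m) = x ^ m ∧ τ z = (starRingEnd ℂ) z

end Pool.Agent.V5helper90.GT
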