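import Mathlib

/-!
# The multiplicative group of the complex numbers, written additively
-/

set_option autoImplicit false

namespace Pool.Agent.V5helper90.GT

noncomputable section

/-- The multiplicative group of the complex numbers, written additively. -/
def LA : Type := Additive ℂˣ

instance : AddCommGroup LA := inferInstanceAs (AddCommGroup (Additive ℂˣ))

/-- The class of a unit. -/
def LA.of (u : ℂˣ) : LA := Additive.ofMul u

/-- The unit of a class. -/
def LA.un (x : LA) : ℂˣ := Additive.toMul x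

theorem of_mul (u v : ℂˣ) : LA.of (u * v) = LA.of u + LA.of v := rfl

theorem of_one : LA.of 1 = 0 := rfl

theorem of_zpow (u : ℂˣ) (n : ℤ) : LA.of (u ^ n) = n • LA.of u := rfl

theorem of_un (x : LA) : LA.of x.un = x := rfl

theorem un_of (u : ℂˣ) : (LA.of u).un = u := rfl

theorem un_zsmul (x : LA) (n : ℤ) : (n • x).un = x.un ^ n := rfl

theorem un_sub (x y : LA) : (x - y).un = x.un / y.un := rfl

theorem of_prod {κ : Type*} (s : Finset κ) (f : κ → ℂˣ) :
    LA.of (∏ l ∈ s, f l) = ∑ l ∈ s, LA.of (f l) := by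
  classical
  induction s using Finset.induction_on with
  | empty => rw [Finset.prod_empty, Finset.sum_empty, of_one]
  | insert a s ha ih => rw [Finset.prod_insert ha, Finset.sum_insert ha, of_mul, ih]

open scoped Classical in
/-- The element of the multiplicative group. -/
def lg (x : ℂ) : LA := if h : x = 0 then 0 else LA.of (Units.mk0 x h)

theorem lg_of_ne {x : ℂ} (h : x ≠ 0) : lg x = LA.of (Units.mk0 x h) := by
  unfold lg
  rw [dif_neg h]

theorem lg_coe (u : ℂˣ) : lg (u : ℂ) = LA.of u := by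
  rw [lg_of_ne u.ne_zero]
  congr 1
  exact Units.ext rfl

theorem lg_inj {x y : ℂ} (hx : x ≠ 0) (hy : y ≠ 0) (h : lg x = lg y) : x = y := by
  rw [lg_of_ne hx, lg_of_ne hy] at h
  have h1 : Units.mk0 x hx = Units.mk0 y hy := h
  have h2 := congrArg (fun u : ℂˣ => (u : ℂ)) h1
  exact h2

theorem lg_one : lg 1 = 0 := by
  rw [lg_of_ne one_ne_zero]
  have h1 : Units.mk0 (1 : ℂ) one_ne_zero = 1 := Units.ext rfl
  rw [h1]
  rfl

theorem lg_mul {x y : ℂ} (hx : x ≠ 0) (hy : y ≠ 0) : lg (x * y) = lg x + lg y := by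
  rw [lg_of_ne hx, lg_of_ne hy, lg_of_ne (mul_ne_zero hx hy), ← of_mul]
  congr 1
  exact Units.ext rfl

theorem lg_div {x y : ℂ} (hx : x ≠ 0) (hy : y ≠ 0) : lg (x / y) = lg x - lg y := by
  rw [eq_sub_iff_add_eq, ← lg_mul (div_ne_zero hx hy) hy, div_mul_cancel₀ _ hy]

theorem lg_zpow {x : ℂ} (hx : x ≠ 0) (n : ℤ) : lg (x ^ n) = n • lg x := by
  rw [lg_of_ne hx, lg_of_ne (zpow_ne_zero n hx), ← of_zpow]
  congr 1
  refine Units.ext ?_
  rw [Units.val_zpow_eq_zpow_val]
  rfl

theorem lg_pow {x : ℂ} (hx : x ≠ 0) (n : ℕ) : lg (x ^ n) = (n : ℤ) • lg x := by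
  rw [← zpow_natCast, lg_zpow hx]

theorem lg_prod {κ : Type*} (s : Finset κ) (f : κ → ℂ) (h : ∀ l ∈ s, f l ≠ 0) :
    lg (∏ l ∈ s, f l) = ∑ l ∈ s, lg (f l) := by
  classical
  induction s using Finset.induction_on with
  | empty => rw [Finset.prod_empty, Finset.sum_empty, lg_one]
  | insert a s ha ih =>
    rw [Finset.prod_insert ha, Finset.sum_insert ha,
      lg_mul (h a (Finset.mem_insert_self a s)) (Finset.prod_ne_zero_iff.2 fun l hl =>
        h l (Finset.mem_insert_of_mem hl)), ih fun l hl => h l (Finset.mem_insert_of_mem hl)]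

/-- The action of an automorphism of `ℂ`. -/
def ac (τ : ℂ →+* ℂ) : LA →+ LA :=
  MonoidHom.toAdditive (Units.map (τ : ℂ →* ℂ))

theorem ac_lg (τ : ℂ →+* ℂ) (x : ℂ) : ac τ (lg x) = lg (τ x) := by
  by_cases hx : x = 0
  · rw [hx, map_zero]
    unfold lg
    rw [dif_pos rfl, map_zero]
  · have h1 : τ x ≠ 0 := (map_ne_zero τ).2 hx
    rw [lg_of_ne hx, lg_of_ne h1]
    change LA.of (Units.map (τ : ℂ →* ℂ) (Units.mk0 x hx)) = _
    congr 1
    exact Units.ext rfl

end

end Pool.Agent.V5helper90.GT
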