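import Mathlib
import Pool.Agent.V5helper90.NS.Over
import Pool.Agent.V5helper90.GT.Log
import Pool.Agent.V5helper90.GT.Defs3

/-!
# Relations between eigenvalues of Frobenius and numbers of small angle rank
-/

set_option autoImplicit false

open Polynomial NumberField IntermediateField Module

namespace Pool.Agent.V5helper90.GT

open Pool.Agent.W518.DN Pool.Agent.V5helper90.NS

noncomputable section

variable {κ : Type} {p a : ℕ} [hp : Fact p.Prime] {g : κ → ℕ} {P : κ → ℤ[X]}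

/-- The number `z` is a root of `P i`. -/
def Rt (P : κ → ℤ[X]) (i : κ) (z : ℂ) : Prop := ((P i).map (Int.castRingHom ℂ)).IsRoot z

/-- The class of `w / (q / w)`. -/
def uu (q : ℕ) (w : ℂ) : LA := lg w - lg ((q : ℂ) / w)

theorem rt_map (τ : ℂ →+* ℂ) {i : κ} {z : ℂ} (h : Rt P i z) : Rt P i (τ z) := by
  have h2 : (P i).map (Int.castRingHom ℂ) = ((P i).map (Int.castRingHom ℂ)).map τ := by
    rw [Polynomial.map_map]; congr 1; exact RingHom.ext_int _ _
  unfold Rt
  rw [h2]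
  exact IsRoot.map h

omit hp in
theorem uu_map (q : ℕ) (τ : ℂ →+* ℂ) (w : ℂ) : ac τ (uu q w) = uu q (τ w) := by
  unfold uu
  rw [map_sub, ac_lg, ac_lg, map_div₀, map_natCast]

omit hp in
theorem uu_div {q : ℕ} (hq : q ≠ 0) (w : ℂ) : uu q ((q : ℂ) / w) = - uu q w := by
  have hq' : (q : ℂ) ≠ 0 := by exact_mod_cast hq
  unfold uu
  rw [div_div_cancel₀ hq', neg_sub]

theorem uu_ne (h : VeryNice p a g P) {i : κ} {w : ℂ} (hw : Rt P i w) {n : ℤ}
    (hn : n • uu (p ^ a) w = 0) : n = 0 := by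
  by_contra hn0
  have hq : ((p ^ a : ℕ) : ℂ) ≠ 0 := by exact_mod_cast pow_ne_zero a hp.out.ne_zero
  have hw0 : w ≠ 0 := root_ne h.nice.flips hp.out hw
  have hd : ((p ^ a : ℕ) : ℂ) / w ≠ 0 := div_ne_zero hq hw0
  have h1 : lg ((w / (((p ^ a : ℕ) : ℂ) / w)) ^ n) = lg 1 := by
    rw [lg_zpow (div_ne_zero hw0 hd), lg_div hw0 hd, lg_one]
    exact hn
  have h2 := lg_inj (zpow_ne_zero _ (div_ne_zero hw0 hd)) one_ne_zero h1
  have h3 : w / (((p ^ a : ℕ) : ℂ) / w) = w ^ 2 / ((p ^ a : ℕ) : ℂ) := by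
    field_simp
  rw [h3] at h2
  have h4 : (w ^ 2 / ((p ^ a : ℕ) : ℂ)) ^ n.natAbs = 1 := by
    rcases Int.natAbs_eq n with h5 | h5
    · rw [h5, zpow_natCast] at h2
      exact h2
    · rw [h5, zpow_neg, zpow_natCast, inv_eq_one] at h2
      exact h2
  rw [div_pow, div_eq_one_iff_eq (pow_ne_zero _ hq), ← pow_mul] at h4
  exact h.pow i w hw n.natAbs (Int.natAbs_pos.2 hn0) h4

/-- The effect of a flip on a sum. -/
theorem flip_sum (h : Nice p a g P) {κ' : Type*} [Fintype κ'] [DecidableEq ℂ] (z : κ' → ℂ)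
    (hz : ∀ l, ∃ k, Rt P k (z l)) {i : κ} {y : ℂ} (hy : Rt P i y) {σ : ℂ ≃+* ℂ}
    (hσ : ∀ k (π : ℂ), ((P k).map (Int.castRingHom ℂ)).IsRoot π →
      (π + ((p ^ a : ℕ) : ℂ) / π = y + ((p ^ a : ℕ) : ℂ) / y → σ π = ((p ^ a : ℕ) : ℂ) / π) ∧
      (π + ((p ^ a : ℕ) : ℂ) / π ≠ y + ((p ^ a : ℕ) : ℂ) / y → σ π = π)) :
    ∑ l, lg (z l) - ac (σ : ℂ →+* ℂ) (∑ l, lg (z l)) =
      (((Finset.univ.filter fun l => z l = y).card : ℤ) -
        ((Finset.univ.filter fun l => z l = ((p ^ a : ℕ) : ℂ) / y).card : ℤ)) •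
        uu (p ^ a) y := by
  have hq : ((p ^ a : ℕ) : ℂ) ≠ 0 := by exact_mod_cast pow_ne_zero a hp.out.ne_zero
  have hy0 : y ≠ 0 := root_ne h.flips hp.out hy
  have hyd : y ≠ ((p ^ a : ℕ) : ℂ) / y := by
    intro h1
    rw [h.conj hy] at h1
    exact h.conj_ne hy h1.symm
  have h1 : ∀ l, lg (z l) - ac (σ : ℂ →+* ℂ) (lg (z l)) =
      (if z l = y then uu (p ^ a) y else 0) -
        (if z l = ((p ^ a : ℕ) : ℂ) / y then uu (p ^ a) y else 0) := by
    intro l
    obtain ⟨k, hk⟩ := hz l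
    rw [ac_lg]
    by_cases h2 : z l = y
    · rw [if_pos h2, if_neg (by rw [h2]; exact hyd), sub_zero]
      have h3 := (hσ k (z l) hk).1 (by rw [h2])
      change lg (z l) - lg (σ (z l)) = _
      rw [h3, h2]
      rfl
    · by_cases h4 : z l = ((p ^ a : ℕ) : ℂ) / y
      · rw [if_neg h2, if_pos h4, zero_sub]
        have h3 := (hσ k (z l) hk).1 (by
          rw [h4, div_div_cancel₀ hq, add_comm])
        change lg (z l) - lg (σ (z l)) = _
        rw [h3, h4, div_div_cancel₀ hq]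
        unfold uu
        rw [neg_sub]
      · rw [if_neg h2, if_neg h4, sub_zero]
        have h3 := (hσ k (z l) hk).2 (by
          intro h5
          rcases fibre (root_ne h.flips hp.out hk) hy0 h5 with h6 | h6
          · exact h2 h6
          · exact h4 h6)
        change lg (z l) - lg (σ (z l)) = _
        rw [h3, sub_self]
  rw [map_sum, ← Finset.sum_sub_distrib, Finset.sum_congr rfl (fun l _ => h1 l),
    Finset.sum_sub_distrib, sub_smul]
  congr 1
  · rw [← Finset.sum_filter, Finset.sum_const, natCast_zsmul]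
  · rw [← Finset.sum_filter, Finset.sum_const, natCast_zsmul]

/-- Half of the roots. -/
theorem exists_half (h : Nice p a g P) {i : κ} (hg : 1 ≤ g i) :
    ∃ t : Fin (g i) → ℂ, Function.Injective t ∧ ∀ j, Rt P i (t j) ∧ 0 < (t j).im := by
  classical
  obtain ⟨E, hE1, hE2, hE3, z, hz⟩ := exists_cm h i hg
  have hm := monic_of h.flips i
  let S : Finset ℂ := ((P i).map (Int.castRingHom ℂ)).roots.toFinset
  have hS : ∀ x, x ∈ S ↔ Rt P i x := by
    intro x
    rw [Multiset.mem_toFinset, mem_roots (hm.map _).ne_zero]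
    rfl
  have h1 : 2 * g i ≤ S.card := by
    refine (finrank_ge h hz).trans ?_
    rw [← NumberField.Embeddings.card ℚ⟮z⟯ ℂ, ← Finset.card_univ]
    refine Finset.card_le_card_of_injOn (fun φ => φ (AdjoinSimple.gen ℚ z)) ?_ ?_
    · intro φ _
      exact (hS _).2 (root_map hz φ)
    · intro φ _ ψ _ h2
      exact ext_gen h2
  let S1 := S.filter fun x => 0 < x.im
  let S2 := S.filter fun x => x.im < 0
  have h2 : S ⊆ S1 ∪ S2 := by
    intro x hx
    rcases lt_trichotomy x.im 0 with h3 | h3 | h3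
    · exact Finset.mem_union_right _ (Finset.mem_filter.2 ⟨hx, h3⟩)
    · exact absurd (Complex.conj_eq_iff_im.2 h3) (h.conj_ne ((hS x).1 hx))
    · exact Finset.mem_union_left _ (Finset.mem_filter.2 ⟨hx, h3⟩)
  have h3 : S2.card ≤ S1.card := by
    refine Finset.card_le_card_of_injOn (fun x => (starRingEnd ℂ) x) ?_ ?_
    · intro x hx
      obtain ⟨h4, h5⟩ := Finset.mem_filter.1 (Finset.mem_coe.1 hx)
      refine Finset.mem_coe.2 (Finset.mem_filter.2 ⟨(hS _).2 (rt_map _ ((hS x).1 h4)), ?_⟩)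
      rw [Complex.conj_im]
      linarith
    · intro x _ y _ hxy
      exact (starRingEnd ℂ).injective hxy
  have h4 : g i ≤ S1.card := by
    have h5 := (Finset.card_le_card h2).trans (Finset.card_union_le S1 S2)
    omega
  obtain ⟨f⟩ : Nonempty (Fin (g i) ↪ S1) := Function.Embedding.nonempty_of_card_le (by
    rw [Fintype.card_fin, Fintype.card_coe]
    exact h4)
  refine ⟨fun j => (f j : ℂ), fun j j' hjj => f.injective (Subtype.ext hjj), fun j => ?_⟩
  obtain ⟨h5, h6⟩ := Finset.mem_filter.1 (f j).2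
  exact ⟨(hS _).1 h5, h6⟩

/-- There are no relations with numbers of small angle rank. -/
theorem no_small {L₀ : IntermediateField ℚ ℂ} (h : OverNice L₀ p a g P) {E : Set ℂ}
    {i : κ} (hg : 1 ≤ g i) (hfree : AngleRankLT L₀ E (g i)) {C M : ℤ}
    (hrel : ∀ w, Rt P i w → ∃ x ∈ E, ∃ y ∈ E, x ≠ 0 ∧ y ≠ 0 ∧
      C • uu (p ^ a) w = M • (lg x - lg y)) : C = 0 := by
  classical
  have hq : ((p ^ a : ℕ) : ℂ) ≠ 0 := by exact_mod_cast pow_ne_zero a hp.out.ne_zero
  have hq' : p ^ a ≠ 0 := pow_ne_zero a hp.out.ne_zero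
  by_contra hC
  obtain ⟨t, ht, htr⟩ := exists_half h.very.nice hg
  let G : Subgroup ℂˣ := Subgroup.closure {u : ℂˣ | ∃ r ∈ E, (u : ℂ) = r / (starRingEnd ℂ) r}
  have hG : ∀ x ∈ E, x ≠ 0 → (lg x - lg ((starRingEnd ℂ) x)).un ∈ G := by
    intro x hx hx0
    refine Subgroup.subset_closure ⟨x, hx, ?_⟩
    have h1 : (starRingEnd ℂ) x ≠ 0 := (_root_.map_ne_zero _).2 hx0
    rw [← lg_div hx0 h1, lg_of_ne (div_ne_zero hx0 h1)]
    rfl
  have h1 : ∀ w, Rt P i w → ((2 * C) • uu (p ^ a) w).un ∈ G := by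
    intro w hw
    obtain ⟨x, hx, y, hy, hx0, hy0, h2⟩ := hrel w hw
    have h3 : C • uu (p ^ a) ((starRingEnd ℂ) w) = M • (lg ((starRingEnd ℂ) x) -
        lg ((starRingEnd ℂ) y)) := by
      have h4 := congrArg (ac (starRingEnd ℂ)) h2
      rw [map_zsmul, map_zsmul, uu_map, map_sub, ac_lg, ac_lg] at h4
      exact h4
    rw [← h.very.nice.conj hw, uu_div hq'] at h3
    have h4 : (2 * C) • uu (p ^ a) w = M • ((lg x - lg ((starRingEnd ℂ) x)) -
        (lg y - lg ((starRingEnd ℂ) y))) := by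
      have h5 : (2 * C) • uu (p ^ a) w = C • uu (p ^ a) w - C • (- uu (p ^ a) w) := by
        rw [smul_neg, sub_neg_eq_add, ← two_smul ℤ (C • uu (p ^ a) w), smul_smul]
      rw [h5, h2, h3, ← smul_sub]
      congr 1
      abel
    rw [h4, un_zsmul, un_sub]
    exact G.zpow_mem (G.div_mem (hG x hx hx0) (hG y hy hy0)) M
  obtain ⟨n, hn0, hn⟩ := hfree (fun j => ((2 * C) • uu (p ^ a) (t j)).un)
    fun j => h1 _ (htr j).1
  obtain ⟨j, hj⟩ := Function.ne_iff.1 hn0
  rw [Pi.zero_apply] at hj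
  obtain ⟨σ, hσ, hσL⟩ := h.flip i (t j) (htr j).1
  set s : LA := ∑ j, n j • ((2 * C) • uu (p ^ a) (t j)) with hs
  have h2 : lg ((∏ j, (((2 * C) • uu (p ^ a) (t j)).un) ^ n j : ℂˣ) : ℂ) = s := by
    rw [lg_coe, of_prod, hs]
    refine Finset.sum_congr rfl fun j _ => ?_
    rw [of_zpow, of_un]
  have h3 : ac (σ : ℂ →+* ℂ) s = s := by
    rw [← h2, ac_lg]
    congr 1
    exact hσL _ hn
  have h4 : ∀ k, uu (p ^ a) (t k) - ac (σ : ℂ →+* ℂ) (uu (p ^ a) (t k)) =
      if k = j then (2 : ℤ) • uu (p ^ a) (t j) else 0 := by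
    intro k
    rw [uu_map]
    by_cases hk : k = j
    · rw [if_pos hk, hk]
      have h5 : (σ : ℂ →+* ℂ) (t j) = ((p ^ a : ℕ) : ℂ) / t j := (hσ i _ (htr j).1).1 rfl
      rw [h5, uu_div hq', sub_neg_eq_add, two_smul]
    · rw [if_neg hk]
      have h5 : (σ : ℂ →+* ℂ) (t k) = t k := by
        refine (hσ i _ (htr k).1).2 fun h6 => ?_
        rcases fibre (root_ne h.very.nice.flips hp.out (htr k).1)
          (root_ne h.very.nice.flips hp.out (htr j).1) h6 with h7 | h7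
        · exact hk (ht h7)
        · rw [h.very.nice.conj (htr j).1] at h7
          have h8 := (htr k).2
          rw [h7, Complex.conj_im] at h8
          have h9 := (htr j).2
          linarith
      rw [h5, sub_self]
  have h5 : s - ac (σ : ℂ →+* ℂ) s = (n j * (2 * C) * 2) • uu (p ^ a) (t j) := by
    rw [hs, map_sum, ← Finset.sum_sub_distrib]
    have h6 : ∀ k, n k • ((2 * C) • uu (p ^ a) (t k)) -
        ac (σ : ℂ →+* ℂ) (n k • ((2 * C) • uu (p ^ a) (t k))) =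
        if k = j then (n j * (2 * C) * 2) • uu (p ^ a) (t j) else 0 := by
      intro k
      rw [map_zsmul, map_zsmul, ← smul_sub, ← smul_sub, h4]
      by_cases hk : k = j
      · rw [if_pos hk, if_pos hk, hk, smul_smul, smul_smul]
      · rw [if_neg hk, if_neg hk, smul_zero, smul_zero]
    rw [Finset.sum_congr rfl (fun k _ => h6 k), Finset.sum_ite_eq' , if_pos (Finset.mem_univ _)]
  rw [h3, sub_self] at h5
  have h6 := uu_ne h.very (htr j).1 h5.symm
  have h7 : n j * (2 * C) * 2 ≠ 0 := mul_ne_zero (mul_ne_zero hj (mul_ne_zero two_ne_zero hC)) two_ne_zero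
  exact h7 h6

/-- The relations are balanced. -/
theorem balanced {L₀ : IntermediateField ℚ ℂ} (h : OverNice L₀ p a g P) {κ' : Type*} [Fintype κ']
    [DecidableEq ℂ] (z : κ' → ℂ) (hz : ∀ l, ∃ k, Rt P k (z l)) {E : Set ℂ}
    (hE : ∀ (τ : ℂ →+* ℂ), ∀ r ∈ E, τ r ∈ E) {x : ℂ} (hx : x ∈ E) (hx0 : x ≠ 0) {M : ℕ}
    (hM : 0 < M) (hrel : ∏ l, z l ^ M = x ^ M) {i : κ} (hg : 1 ≤ g i) {y : ℂ} (hy : Rt P i y)
    (hfree : AngleRankLT L₀ E (g i) ∨ ∃ (τ : ℂ ≃+* ℂ) (m : ℕ), 0 < m ∧ τ (x ^ m) = x ^ m ∧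
      τ y = (starRingEnd ℂ) y) :
    (Finset.univ.filter fun l => z l = y).card =
      (Finset.univ.filter fun l => z l = ((p ^ a : ℕ) : ℂ) / y).card := by
  have hq : ((p ^ a : ℕ) : ℂ) ≠ 0 := by exact_mod_cast pow_ne_zero a hp.out.ne_zero
  have hq' : p ^ a ≠ 0 := pow_ne_zero a hp.out.ne_zero
  have hy0 : y ≠ 0 := root_ne h.very.nice.flips hp.out hy
  have hz0 : ∀ l, z l ≠ 0 := fun l => by
    obtain ⟨k, hk⟩ := hz l
    exact root_ne h.very.nice.flips hp.out hk
  obtain ⟨σ, hσ, hσL⟩ := h.flip i y hy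
  have hMZ : (M : ℤ) ≠ 0 := by exact_mod_cast hM.ne'
  -- the relation, written additively
  have h1 : (M : ℤ) • ∑ l, lg (z l) = (M : ℤ) • lg x := by
    have h2 := congrArg lg hrel
    rw [lg_prod _ _ (fun l _ => pow_ne_zero _ (hz0 l)), lg_pow hx0] at h2
    rw [← h2, Finset.smul_sum]
    exact Finset.sum_congr rfl fun l _ => (lg_pow (hz0 l) M).symm
  set c : ℤ := ((Finset.univ.filter fun l => z l = y).card : ℤ) -
    ((Finset.univ.filter fun l => z l = ((p ^ a : ℕ) : ℂ) / y).card : ℤ) with hc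
  have h2 := flip_sum h.very.nice z hz hy hσ
  suffices hc0 : c = 0 by
    have h3 := sub_eq_zero.1 (hc.symm.trans hc0)
    exact_mod_cast h3
  rcases hfree with hfree | ⟨τ, m, hm, hτ, hτy⟩
  · have h3 : ((M : ℤ) * c) • uu (p ^ a) y = (M : ℤ) • (lg x - lg (σ x)) := by
      rw [mul_smul, hc, ← h2, smul_sub, smul_sub, ← map_zsmul, h1, map_zsmul, ac_lg]
      rfl
    have h4 := no_small h hg hfree (C := (M : ℤ) * c) (M := M) (fun w hw => by
      obtain ⟨τ, hτ⟩ := trans_roots h.very.nice.flips hp.out (h.very.nice.weil i) hy hw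
      refine ⟨(τ : ℂ →+* ℂ) x, hE _ x hx, (τ : ℂ →+* ℂ) (σ x), hE _ _ (hE (σ : ℂ →+* ℂ) x hx),
        (_root_.map_ne_zero _).2 hx0, (_root_.map_ne_zero _).2 ((_root_.map_ne_zero _).2 hx0), ?_⟩
      have h5 := congrArg (ac (τ : ℂ →+* ℂ)) h3
      rw [map_zsmul, map_zsmul, map_sub, uu_map, ac_lg, ac_lg] at h5
      have h6 : (τ : ℂ →+* ℂ) y = w := hτ
      rw [h6] at h5
      exact h5)
    exact (mul_eq_zero.1 h4).resolve_left hMZ
  · -- the second case
    have hmZ : (m : ℤ) ≠ 0 := by exact_mod_cast hm.ne'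
    have hτd : τ (((p ^ a : ℕ) : ℂ) / y) = y := by
      rw [map_div₀, map_natCast, hτy, ← h.very.nice.conj hy, div_div_cancel₀ hq]
    have hτy' : τ y = ((p ^ a : ℕ) : ℂ) / y := by
      rw [hτy, h.very.nice.conj hy]
    have hz' : ∀ l, ∃ k, Rt P k (τ (z l)) := fun l => by
      obtain ⟨k, hk⟩ := hz l
      exact ⟨k, rt_map (τ : ℂ →+* ℂ) hk⟩
    have h3 := flip_sum h.very.nice (fun l => τ (z l)) hz' hy hσ
    have h4 : ((M : ℤ) * m) • ∑ l, lg (τ (z l)) = ((M : ℤ) * m) • ∑ l, lg (z l) := by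
      have h5 : (m : ℤ) • lg (τ x) = (m : ℤ) • lg x := by
        rw [← lg_pow hx0, ← lg_pow ((_root_.map_ne_zero τ).2 hx0), ← map_pow, hτ]
      have h6 : ∑ l, lg (τ (z l)) = ac (τ : ℂ →+* ℂ) (∑ l, lg (z l)) := by
        rw [map_sum]
        exact Finset.sum_congr rfl fun l _ => (ac_lg (τ : ℂ →+* ℂ) (z l)).symm
      rw [h6, mul_comm (M : ℤ) m, mul_smul, mul_smul, ← map_zsmul, h1, map_zsmul, ac_lg,
        smul_comm, smul_comm (m : ℤ) (M : ℤ) (lg x)]
      exact congrArg (fun w => (M : ℤ) • w) h5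
    have h5 : (Finset.univ.filter fun l => τ (z l) = y) =
        Finset.univ.filter fun l => z l = ((p ^ a : ℕ) : ℂ) / y := by
      ext l
      simp only [Finset.mem_filter, Finset.mem_univ, true_and]
      constructor
      · intro h6
        apply τ.injective
        rw [h6, hτd]
      · intro h6
        rw [h6, hτd]
    have h6 : (Finset.univ.filter fun l => τ (z l) = ((p ^ a : ℕ) : ℂ) / y) =
        Finset.univ.filter fun l => z l = y := by
      ext l
      simp only [Finset.mem_filter, Finset.mem_univ, true_and]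
      constructor
      · intro h6
        apply τ.injective
        rw [h6, hτy']
      · intro h6
        rw [h6, hτy']
    rw [h5, h6] at h3
    have h7 : ((M : ℤ) * m * (2 * c)) • uu (p ^ a) y = 0 := by
      have h8 : (2 * c) • uu (p ^ a) y = (∑ l, lg (z l) - ac (σ : ℂ →+* ℂ) (∑ l, lg (z l))) -
          (∑ l, lg (τ (z l)) - ac (σ : ℂ →+* ℂ) (∑ l, lg (τ (z l)))) := by
        rw [h2, h3, ← sub_smul, hc]
        congr 1
        ring
      rw [mul_smul, h8, smul_sub, smul_sub, smul_sub, ← map_zsmul, ← map_zsmul, h4, sub_self]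
    have h8 := uu_ne h.very hy h7
    rcases mul_eq_zero.1 h8 with h9 | h9
    · exact absurd h9 (mul_ne_zero hMZ hmZ)
    · exact (mul_eq_zero.1 h9).resolve_left two_ne_zero

end

end Pool.Agent.V5helper90.GT
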