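import Mathlib

/-!
# Tate classes with values in a representation: definitions
-/

set_option autoImplicit false

namespace Pool.Agent.V5helper90.GT

variable {k V W Γ : Type*} [Field k] [AddCommGroup V] [Module k V] [AddCommGroup W] [Module k W]
  [Group Γ]

/-- The multilinear map `φ` on `V` with values in `W` is equivariant under a subgroup `Δ` of finite
index of `Γ`: it is a Tate class in the tensor product of a tensor power of the dual space of `V` and
of `W`. -/
def IsTateValued (ρ : Representation k Γ V) (σ : Representation k Γ W) {κ : Type*}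
    (φ : MultilinearMap k (fun _ : κ => V) W) : Prop :=
  ∃ Δ : Subgroup Γ, Δ.FiniteIndex ∧ ∀ s ∈ Δ, ∀ v : κ → V, φ (fun l => ρ s (v l)) = σ s (φ v)

/-- The vector `w` is a Tate class in the twist `W(-m)`: a subgroup `Δ` of finite index of `Γ` acts
on it through the power `m` of the cyclotomic character `χ`. -/
def IsTateVector (σ : Representation k Γ W) (χ : Γ →* k) (m : ℕ) (w : W) : Prop :=
  ∃ Δ : Subgroup Γ, Δ.FiniteIndex ∧ ∀ s ∈ Δ, σ s w = χ s ^ m • w

end Pool.Agent.V5helper90.GT
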