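import Mathlib
import Pool.Agent.V5helper90.GT.Defs
import Pool.Agent.V5helper90.GT.Gen

/-!
# The coordinates of forms with values in a representation
-/

set_option autoImplicit false
set_option linter.unusedSectionVars false

namespace Pool.Agent.V5helper90.GT

open Module Pool.Agent.H204R3.CM Pool.Agent.H204R3.SP Pool.Agent.H204R3.GP TensorProduct

noncomputable section

variable {k Ω : Type*} [Field k] [Field Ω] [Algebra k Ω] [CharZero k] [CharZero Ω] {V W : Type*}
  [AddCommGroup V] [Module k V]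
  [AddCommGroup W] [Module k W]
  {ν : Type*} [Fintype ν] [DecidableEq ν] (b : Basis ν k V)
  {μ : Type*} [Fintype μ] (c : Basis μ k W)
  {Γ : Type*} [Group Γ] (ρ : Representation k Γ V) (σ : Representation k Γ W)
  {κ : Type*} [Fintype κ] [DecidableEq κ] (φ : MultilinearMap k (fun _ : κ => V) W)

/-- A coordinate of a multilinear map. -/
def cf (i : μ) : MultilinearMap k (fun _ : κ => V) k := (c.coord i).compMultilinearMap φ

theorem cf_apply (i : μ) (v : κ → V) : cf c φ i v = c.coord i (φ v) := rfl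

theorem sum_cf (v : κ → V) : ∑ i, cf c φ i v • c i = φ v := c.sum_repr (φ v)

theorem cf_act (s : Γ) (hs : ∀ v : κ → V, φ (fun l => ρ s (v l)) = σ s (φ v)) (i : μ) (v : κ → V) :
    cf c φ i (fun l => ρ s (v l)) = ∑ j, c.coord i (σ s (c j)) * cf c φ j v := by
  rw [cf_apply, hs, ← sum_cf c φ v, map_sum, map_sum]
  refine Finset.sum_congr rfl fun j _ => ?_
  rw [map_smul, map_smul, smul_eq_mul, mul_comm]

theorem bcm_act (s : Γ) (hs : ∀ v : κ → V, φ (fun l => ρ s (v l)) = σ s (φ v)) (i : μ) :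
    act (bcr ρ Ω) s (bcm (Ω := Ω) b (cf c φ i)) =
      ∑ j, algebraMap k Ω (c.coord i (σ s (c j))) • bcm (Ω := Ω) b (cf c φ j) := by
  refine Basis.ext_multilinear (fun _ => b.baseChange Ω) fun J => ?_
  rw [act_apply, _root_.sum_apply]
  have h2 : ∀ l, bcr ρ Ω s (b.baseChange Ω (J l)) = (1 : Ω) ⊗ₜ[k] ρ s (b (J l)) := by
    intro l
    rw [Basis.baseChange_apply, bcr_tmul]
  simp only [h2]
  rw [bcm_one, cf_act c ρ σ φ s hs, map_sum]
  refine Finset.sum_congr rfl fun j _ => ?_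
  rw [_root_.smul_apply, bcm_basis, smul_eq_mul, map_mul]

/-- The value of the base change of `φ`. -/
def vec (u : κ → Ω ⊗[k] V) : Ω ⊗[k] W :=
  ∑ i, bcm (Ω := Ω) b (cf c φ i) u • ((1 : Ω) ⊗ₜ[k] c i)

theorem vec_ne (u : κ → Ω ⊗[k] V) (i : μ) (h : bcm (Ω := Ω) b (cf c φ i) u ≠ 0) :
    vec b c φ u ≠ 0 := by
  intro h0
  apply h
  have h1 : ∑ i, bcm (Ω := Ω) b (cf c φ i) u • (c.baseChange Ω) i = 0 := by
    rw [← h0]
    unfold vec
    refine Finset.sum_congr rfl fun i _ => ?_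
    rw [Basis.baseChange_apply]
  have h2 := Fintype.linearIndependent_iff.1 (c.baseChange Ω).linearIndependent _ h1 i
  exact h2

theorem vec_act (s : Γ) (hs : ∀ v : κ → V, φ (fun l => ρ s (v l)) = σ s (φ v))
    (u : κ → Ω ⊗[k] V) :
    bcr σ Ω s (vec b c φ u) = vec b c φ (fun l => bcr ρ Ω s (u l)) := by
  unfold vec
  rw [map_sum]
  have h1 : ∀ i, bcr σ Ω s (bcm (Ω := Ω) b (cf c φ i) u • ((1 : Ω) ⊗ₜ[k] c i)) =
      ∑ j, (bcm (Ω := Ω) b (cf c φ i) u * algebraMap k Ω (c.coord j (σ s (c i)))) •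
        ((1 : Ω) ⊗ₜ[k] c j) := by
    intro i
    rw [map_smul, bcr_tmul]
    conv_lhs => rw [← c.sum_repr (σ s (c i))]
    rw [TensorProduct.tmul_sum, Finset.smul_sum]
    refine Finset.sum_congr rfl fun j _ => ?_
    rw [TensorProduct.tmul_smul, ← algebraMap_smul Ω ((c.repr (σ s (c i))) j), smul_smul]
    rfl
  rw [Finset.sum_congr rfl (fun i _ => h1 i), Finset.sum_comm]
  refine Finset.sum_congr rfl fun j _ => ?_
  rw [← Finset.sum_smul]
  congr 1
  have h2 := congrArg (fun F : MultilinearMap Ω (fun _ : κ => Ω ⊗[k] V) Ω => F u)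
    (bcm_act (Ω := Ω) b c ρ σ φ s hs j)
  simp only [act_apply, _root_.sum_apply, _root_.smul_apply, smul_eq_mul] at h2
  rw [h2]
  exact Finset.sum_congr rfl fun i _ => mul_comm _ _

end

end Pool.Agent.V5helper90.GT
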