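import Mathlib
import Pool.Agent.V5helper90.GT.Coord
import Pool.Agent.H204R3.GP.Neat

/-!
# Tate classes with values in a representation, and one Frobenius element
-/

set_option autoImplicit false
set_option linter.unusedSectionVars false

namespace Pool.Agent.V5helper90.GT

open NumberField Module Pool.Agent.H204R3.CM Pool.Agent.H204R3.SP Pool.Agent.H204R3.GP
  TensorProduct IntermediateField

noncomputable section

theorem finiteIndex_map {Γ : Type*} [Group Γ] {Δ : Subgroup Γ} (hΔ : Δ.FiniteIndex)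
    {Δ' : Subgroup Δ} (hΔ' : Δ'.FiniteIndex) : (Δ'.map Δ.subtype).FiniteIndex :=
  ⟨by
    rw [Subgroup.index_map_subtype]
    exact mul_ne_zero hΔ'.index_ne_zero hΔ.index_ne_zero⟩

section restrict

variable {Ω : Type*} [Field Ω] [CharZero Ω] {V : Type*} [AddCommGroup V] [Module Ω V]
  {Γ : Type*} [Group Γ] (ρ : Representation Ω Γ V) (χ : Γ →* Ω) {Δ : Subgroup Γ}
  (hΔ : Δ.FiniteIndex)

/-- The restriction of a representation to a subgroup. -/
def res (Δ : Subgroup Γ) : Representation Ω Δ V := MonoidHom.comp ρ Δ.subtype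

theorem res_apply (s : Δ) : res ρ Δ s = ρ (s : Γ) := rfl

include hΔ in
theorem isTate_of_res {m : ℕ} {φ : MultilinearMap Ω (fun _ : Fin m × Fin 2 => V) Ω}
    (h : IsTate (res ρ Δ) (χ.comp Δ.subtype) m φ) : IsTate ρ χ m φ := by
  obtain ⟨Δ', hΔ', h⟩ := h
  refine ⟨Δ'.map Δ.subtype, finiteIndex_map hΔ hΔ', ?_⟩
  rintro _ ⟨s, hs, rfl⟩ v
  exact h s hs v

include hΔ in
theorem isTate2_of_res {B : V →ₗ[Ω] V →ₗ[Ω] Ω} (h : IsTate2 (res ρ Δ) (χ.comp Δ.subtype) B) :
    IsTate2 ρ χ B := by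
  obtain ⟨Δ', hΔ', h⟩ := h
  refine ⟨Δ'.map Δ.subtype, finiteIndex_map hΔ hΔ', ?_⟩
  rintro _ ⟨s, hs, rfl⟩ u v
  exact h s hs u v

include hΔ in
theorem pt_of_res {m : ℕ} : PT (res ρ Δ) (χ.comp Δ.subtype) m ⊆ PT ρ χ m := by
  rintro _ ⟨τ, B, hB, rfl⟩
  exact ⟨τ, B, fun l => isTate2_of_res ρ χ hΔ (hB l), rfl⟩

include hΔ in
theorem hasProj_res (h : HasProj ρ) : HasProj (res ρ Δ) := by
  intro Δ' hΔ' U hU
  obtain ⟨P, h1, h2, h3⟩ := h (Δ'.map Δ.subtype) (finiteIndex_map hΔ hΔ') U (by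
    rintro _ ⟨s, hs, rfl⟩ u hu
    exact hU s hs u hu)
  exact ⟨P, h1, h2, fun s hs v => h3 _ ⟨s, hs, rfl⟩ v⟩

end restrict

section descend

variable {k Ω : Type*} [Field k] [Field Ω] [Algebra k Ω] {V : Type*} [AddCommGroup V] [Module k V]
  [CharZero k] [CharZero Ω] {ν : Type*} [Fintype ν] [DecidableEq ν] (b : Basis ν k V)
  {Γ : Type*} [Group Γ] (ρ : Representation k Γ V) (χ : Γ →* k)

/-- Descent from a finite extension. (This is the argument of `tate_descentG` in the starting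
library.) -/
theorem descend [FiniteDimensional k Ω] {m : ℕ}
    (φ : MultilinearMap k (fun _ : Fin m × Fin 2 => V) k)
    (h1 : bcm (Ω := Ω) b φ ∈ Submodule.span Ω (PT (bcr ρ Ω) (bcc χ Ω) m)) :
    φ ∈ Submodule.span k (PT ρ χ m) := by
  classical
  let w := Module.finBasis k Ω
  let res : MultilinearMap Ω (fun _ : Fin m × Fin 2 => Ω ⊗[k] V) Ω →ₗ[Ω]
      ((Fin m × Fin 2 → V) → Ω) :=
    { toFun := fun F v => F (fun l => (1 : Ω) ⊗ₜ[k] v l)
      map_add' := fun _ _ => rfl
      map_smul' := fun _ _ => rfl }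
  let emb : MultilinearMap k (fun _ : Fin m × Fin 2 => V) k →ₗ[k]
      ((Fin m × Fin 2 → V) → k) :=
    { toFun := fun F v => F v
      map_add' := fun _ _ => rfl
      map_smul' := fun _ _ => rfl }
  have h2 : res (bcm (Ω := Ω) b φ) = fun v => algebraMap k Ω (φ v) := by
    funext v
    exact bcm_one b φ v
  have h3 : (fun v => algebraMap k Ω (φ v)) ∈ Submodule.span Ω
      {g : (Fin m × Fin 2 → V) → Ω | ∃ s ∈ emb '' (PT ρ χ m),
        g = fun x => algebraMap k Ω (s x)} := by
    rw [← h2]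
    have h4 : (Submodule.span Ω (PT (bcr ρ Ω) (bcc χ Ω) m)).map res ≤ Submodule.span Ω
      {g : (Fin m × Fin 2 → V) → Ω | ∃ s ∈ emb '' (PT ρ χ m),
        g = fun x => algebraMap k Ω (s x)} := by
      rw [Submodule.map_span, Submodule.span_le]
      rintro _ ⟨_, ⟨σ, B, hB, rfl⟩, rfl⟩
      have h5 : res (mmG σ B) = ∑ g : Fin m → Fin (finrank k Ω), (∏ l, w (g l)) •
          (fun v => algebraMap k Ω (mmG σ (fun l => comp2 w (B l) (g l)) v)) := by
        funext v
        rw [Finset.sum_apply]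
        change mmG σ B (fun l => (1 : Ω) ⊗ₜ[k] v l) = _
        rw [mmG_apply]
        have h6 : ∀ l, B l ((1 : Ω) ⊗ₜ[k] v (σ (l, 0))) ((1 : Ω) ⊗ₜ[k] v (σ (l, 1))) =
            ∑ i, w i * algebraMap k Ω (comp2 w (B l) i (v (σ (l, 0))) (v (σ (l, 1)))) := by
          intro l
          conv_lhs => rw [← w.sum_repr (B l ((1 : Ω) ⊗ₜ[k] v (σ (l, 0)))
            ((1 : Ω) ⊗ₜ[k] v (σ (l, 1))))]
          refine Finset.sum_congr rfl fun i _ => ?_
          rw [comp2_apply, Algebra.smul_def, mul_comm]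
        rw [Finset.prod_congr rfl (fun l _ => h6 l), Finset.prod_univ_sum, Fintype.piFinset_univ]
        refine Finset.sum_congr rfl fun g _ => ?_
        rw [Finset.prod_mul_distrib, Pi.smul_apply, smul_eq_mul, mmG_apply, map_prod]
      rw [h5]
      refine Submodule.sum_mem _ fun g _ => Submodule.smul_mem _ _ (Submodule.subset_span ?_)
      exact ⟨_, ⟨_, ⟨σ, _, fun l => comp2_tate ρ χ w (hB l) (g l), rfl⟩, rfl⟩, rfl⟩
    exact h4 (Submodule.mem_map_of_mem h1)
  have h4 := span_descent_k _ _ h3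
  rw [← Submodule.map_span] at h4
  obtain ⟨φ', hφ', hφφ⟩ := h4
  have h6 : φ' = φ := MultilinearMap.ext fun v => congrFun hφφ v
  rwa [← h6]

end descend

/-- Balanced multi-indices. -/
def Bal {ι : Type*} {F : ι → Type*} [∀ i, Field (F i)] [∀ i, NumberField (F i)]
    [∀ i, IsCMField (F i)] {L : Type*} [Field L] {κ : Type*} [Fintype κ]
    (I : κ → Σ i, (F i →+* L)) : Prop := by
  classical
  exact ∀ y, (Finset.univ.filter (fun l => I l = y)).card =
    (Finset.univ.filter (fun l => I l = bar y)).card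

/-- Tate classes with values in `W`: the coordinates are combinations of products of Tate forms of
degree two. -/
theorem valued_mem {k : Type*} [Field k] [CharZero k] {V : Type*} [AddCommGroup V]
    [Module k V] [FiniteDimensional k V]
    {p : ℕ} [Fact p.Prime] {a : ℕ}
    {ι : Type*} [Fintype ι] {F : ι → Type*} [∀ i, Field (F i)] [∀ i, NumberField (F i)]
    [∀ i, IsCMField (F i)] {π : ∀ i, F i} (hgen : ∀ i, ℚ⟮π i⟯ = ⊤)
    (hw : ∀ i, π i * IsCMField.complexConj (F i) (π i) = (p : F i) ^ a)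
    {L : Type*} [Field L] [NumberField L] [IsGalois ℚ L] (j : L →+* ℂ)
    (h : ∀ i, ∀ ψ : F i →+* ℂ, ∃ φ : F i →+* L, j.comp φ = ψ) (hneat : Neat p a π L)
    {Γ : Type*} [Group Γ] (ρ : Representation k Γ V) (χ : Γ →* k)
    (ω : V →ₗ[k] V →ₗ[k] k) (halt : ∀ v, ω v v = 0) (hnd : ∀ u, (∀ v, ω v u = 0) → u = 0)
    (hωρ : ∀ s u v, ω (ρ s u) (ρ s v) = χ s * ω u v)
    (hss : ∀ Δ : Subgroup Γ, Δ.FiniteIndex → SemiUnder (ρ '' (Δ : Set Γ)))
    (γ : Γ) (hχ : χ γ = (p : k) ^ a)
    (hγ : (ρ γ).charpoly = ∏ i, (minpoly ℚ (π i)).map (algebraMap ℚ k))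
    {W : Type*} [AddCommGroup W] [Module k W] (σ : Representation k Γ W)
    (hrel : ∀ (Ω : IntermediateField k (AlgebraicClosure k)) (jΩ : L →+* Ω) {κ : Type}
      [Fintype κ] (I : κ → Σ i, (F i →+* L)) (M : ℕ) (w : Ω ⊗[k] W), FiniteDimensional k Ω →
      0 < M → w ≠ 0 → bcr σ Ω (γ ^ M) w = (∏ l, jΩ (val π (I l)) ^ M) • w → Bal I) :
    (∀ {m : ℕ} (φ : MultilinearMap k (fun _ : Fin m × Fin 2 => V) W), IsTateValued ρ σ φ →
      ∀ {μ : Type} [Fintype μ] (c : Basis μ k W) (i : μ),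
        cf c φ i ∈ Submodule.span k (PT ρ χ m)) ∧
    ∀ {n : ℕ} (φ : MultilinearMap k (fun _ : Fin n => V) W), Odd n → IsTateValued ρ σ φ →
      ∀ {μ : Type} [Fintype μ] (_ : Basis μ k W), φ = 0 := by
  classical
  obtain ⟨Ω, hΩ, ⟨jΩ⟩⟩ := exists_finite_ext k L
  have hinjv := val_inj_of_neat hw hneat
  have hcardE : ∀ i, Fintype.card (F i →+* L) = finrank ℚ (F i) := fun i => card_emb j (h i)
  have hanti : ∀ u v, ω u v = -ω v u := by
    intro u v
    have h1 := halt (u + v)
    simp only [map_add, LinearMap.add_apply, halt, zero_add, add_zero] at h1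
    exact eq_neg_of_add_eq_zero_left (by rw [← h1]; ring)
  have hnd' : ∀ u, (∀ v, ω u v = 0) → u = 0 := by
    intro u hu
    apply hnd
    intro v
    rw [hanti, hu, neg_zero]
  let b := Module.finBasis k V
  have hTchar : (bcr ρ Ω γ).charpoly = ∏ i, (minpoly ℚ (π i)).map (algebraMap ℚ Ω) := by
    change ((ρ γ).baseChange Ω).charpoly = _
    rw [LinearMap.charpoly_baseChange, hγ, Polynomial.map_prod]
    refine Finset.prod_congr rfl fun i _ => ?_
    rw [Polynomial.map_map]
    congr 1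
  obtain ⟨e, he⟩ := exists_eigenbasisG (Ω := Ω) (L := L) hgen jΩ hcardE hinjv
    (bcr ρ Ω γ) hTchar
  have hantiΩ : ∀ u v, bcb Ω ω u v = -bcb Ω ω v u := by
    have h1 : bcb Ω ω = -(bcb Ω ω).flip := by
      refine (b.baseChange Ω).ext fun i => (b.baseChange Ω).ext fun l => ?_
      rw [LinearMap.neg_apply, LinearMap.neg_apply, LinearMap.flip_apply, Basis.baseChange_apply,
        Basis.baseChange_apply, bcb_one, bcb_one, hanti, map_neg]
    intro u v
    exact congrArg (fun F : (Ω ⊗[k] V) →ₗ[Ω] (Ω ⊗[k] V) →ₗ[Ω] Ω => F u v) h1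
  have hq : ∀ x y : Σ i, (F i →+* L), y ≠ bar x → bcb Ω ω (e x) (e y) = 0 := by
    intro x y hxy
    by_contra h0
    apply hxy
    have h1 := bcb_inv ρ χ (Ω := Ω) ω hωρ γ (e x) (e y)
    rw [he, he, map_smul, map_smul, LinearMap.smul_apply, smul_eq_mul, smul_eq_mul, bcc_apply, hχ,
      ← mul_assoc] at h1
    have h2 := mul_right_cancel₀ h0 h1
    have h3 : jΩ (val π y * val π x) = jΩ ((p : L) ^ a) := by
      simp only [map_mul, map_pow, map_natCast] at h2 ⊢
      exact h2
    have h4 := jΩ.injective h3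
    have h5 := val_bar (L := L) hw x
    have hx0 : val π x ≠ 0 := by
      intro h6
      rw [h6, zero_mul] at h5
      exact pow_ne_zero a (Nat.cast_ne_zero.2 (Fact.out : p.Prime).ne_zero) h5.symm
    apply hinjv
    apply mul_left_cancel₀ hx0
    rw [h5, mul_comm, h4]
  let jj : (Σ i, (F i →+* L)) → Ω := fun x => bcb Ω ω (e x) (e (bar x))
  have hjj : ∀ x, jj (bar x) = -jj x := by
    intro x
    simp only [jj, bar_bar]
    exact hantiΩ _ _
  have hj0 : ∀ x, jj x ≠ 0 := by
    intro x h0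
    apply e.ne_zero (bar x)
    apply bcb_nondeg b ω hnd hnd'
    have h1 : (bcb Ω ω).flip (e (bar x)) = 0 := by
      refine e.ext fun y => ?_
      rw [LinearMap.flip_apply, LinearMap.zero_apply]
      by_cases hy : bar x = bar y
      · have h2 : y = x := by rw [← bar_bar y, ← hy, bar_bar]
        rw [h2]
        exact h0
      · exact hq _ _ hy
    intro v
    exact congrArg (fun F : (Ω ⊗[k] V) →ₗ[Ω] Ω => F v) h1
  have hω : ∀ x y, bcb Ω ω (e x) (e y) = JJ bar jj x y := by
    intro x y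
    unfold JJ
    by_cases hy : y = bar x
    · rw [if_pos hy, hy]
    · rw [if_neg hy, hq x y hy]
  have hpow : ∀ (n : ℕ) (x : Σ i, (F i →+* L)),
      bcr ρ Ω (γ ^ n) (e x) = (jΩ (val π x)) ^ n • e x := by
    intro n x
    induction n with
    | zero => rw [pow_zero, pow_zero, one_smul, map_one]; rfl
    | succ n ih =>
      rw [pow_succ, map_mul, pow_succ, Module.End.mul_apply, he]
      change bcr ρ Ω (γ ^ n) ((jΩ (val π x)) • e x) = _
      rw [map_smul, ih, smul_smul, mul_comm]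
  have hbal : ∀ (m : ℕ) (φ : MultilinearMap Ω (fun _ : Fin m × Fin 2 => Ω ⊗[k] V) Ω),
      IsTate (bcr ρ Ω) (bcc χ Ω) m φ →
      ∀ I : Fin m × Fin 2 → (Σ i, (F i →+* L)), φ (fun l => e (I l)) ≠ 0 → ∀ y,
        (Finset.univ.filter (fun l => I l = y)).card =
          (Finset.univ.filter (fun l => I l = bar y)).card := by
    rintro m φ ⟨Δ, hΔ, hφ⟩ I hI y
    obtain ⟨M, hM, -, hMΔ⟩ := Subgroup.exists_pow_mem_of_index_ne_zero hΔ.index_ne_zero γ
    refine hneat m M hM I ?_ y
    have h1 := hφ (γ ^ M) hMΔ (fun l => e (I l))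
    simp only [hpow] at h1
    rw [MultilinearMap.map_smul_univ, smul_eq_mul, map_pow, bcc_apply, hχ] at h1
    have h3 := mul_right_cancel₀ hI h1
    have h4 : jΩ (∏ l, (val π (I l)) ^ M) = jΩ (((p : L) ^ a) ^ (m * M)) := by
      simp only [map_prod, map_pow, map_natCast] at h3 ⊢
      rw [h3, ← pow_mul, ← pow_mul, ← pow_mul]
      congr 1
      ring
    exact jΩ.injective h4
  have hproj : HasProj (bcr ρ Ω) := by
    intro Δ hΔ U hU
    obtain ⟨P, hP1, hP2, hP3⟩ := exists_proj_baseChange (Ω := Ω) (ρ '' (Δ : Set Γ)) (hss Δ hΔ) U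
      (by
        rintro _ ⟨s, hs, rfl⟩ u hu
        exact hU s hs u hu)
    exact ⟨P, hP1, hP2, fun s hs v => hP3 _ ⟨s, hs, rfl⟩ v⟩
  -- the coordinates are balanced
  have hkey : ∀ {κ : Type} [Fintype κ] [DecidableEq κ] (φ : MultilinearMap k (fun _ : κ => V) W),
      IsTateValued ρ σ φ → ∀ {μ : Type} [Fintype μ] (c : Basis μ k W) (i : μ)
      (I : κ → Σ i, (F i →+* L)), bcm (Ω := Ω) b (cf c φ i) (fun l => e (I l)) ≠ 0 → Bal I := by
    intro κ _ _ φ hφ μ _ c i I hI
    obtain ⟨Δ, hΔ, hφ⟩ := hφ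
    obtain ⟨M, hM, -, hMΔ⟩ := Subgroup.exists_pow_mem_of_index_ne_zero hΔ.index_ne_zero γ
    refine hrel Ω jΩ I M (vec b c φ (fun l => e (I l))) hΩ hM (vec_ne b c φ _ i hI) ?_
    rw [vec_act b c ρ σ φ (γ ^ M) (hφ _ hMΔ)]
    simp only [hpow]
    unfold vec
    rw [Finset.smul_sum]
    refine Finset.sum_congr rfl fun j _ => ?_
    rw [MultilinearMap.map_smul_univ, smul_smul, smul_eq_mul]
  refine ⟨?_, ?_⟩
  · intro m φ hφ μ _ c i
    obtain ⟨Δ, hΔ, hφ'⟩ := hφ
    have hφ : IsTateValued ρ σ φ := ⟨Δ, hΔ, hφ'⟩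
    refine descend (Ω := Ω) b ρ χ _ ?_
    let U : Submodule Ω (MultilinearMap Ω (fun _ : Fin m × Fin 2 => Ω ⊗[k] V) Ω) :=
      Submodule.span Ω (Set.range fun i => bcm (Ω := Ω) b (cf c φ i))
    have h1 := stable_mem e bar_bar bar_ne hjj hj0 (bcb Ω ω) hω (res (bcr ρ Ω) Δ)
      ((bcc χ Ω).comp Δ.subtype) (fun s => bcb_inv ρ χ ω hωρ (s : Γ)) (hasProj_res _ hΔ hproj)
      (fun m φ hφ => hbal m φ (isTate_of_res _ _ hΔ hφ)) U ?_ ?_
    · have h2 : bcm (Ω := Ω) b (cf c φ i) ∈ U := Submodule.subset_span ⟨i, rfl⟩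
      exact Submodule.span_mono (pt_of_res _ _ hΔ) (h1 h2)
    · rintro ⟨s, hs⟩ f hf
      induction hf using Submodule.span_induction with
      | mem f hf =>
        obtain ⟨i, rfl⟩ := hf
        have h2 := bcm_act (Ω := Ω) b c ρ σ φ s (hφ' s hs) i
        change act (bcr ρ Ω) s (bcm (Ω := Ω) b (cf c φ i)) ∈ U
        rw [h2]
        exact Submodule.sum_mem _ fun j _ => Submodule.smul_mem _ _
          (Submodule.subset_span ⟨j, rfl⟩)
      | zero =>
        have h2 : act (res (bcr ρ Ω) Δ) ⟨s, hs⟩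
            (0 : MultilinearMap Ω (fun _ : Fin m × Fin 2 => Ω ⊗[k] V) Ω) = 0 := rfl
        rw [h2]
        exact Submodule.zero_mem _
      | add f g _ _ hf hg => exact Submodule.add_mem _ hf hg
      | smul x f _ hf => exact Submodule.smul_mem _ x hf
    · intro f hf I hI
      by_contra h2
      apply hI
      have h3 : ∀ i, bcm (Ω := Ω) b (cf c φ i) (fun l => e (I l)) = 0 := by
        intro i
        by_contra h4
        exact h2 (hkey φ hφ c i I h4)
      induction hf using Submodule.span_induction with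
      | mem f hf =>
        obtain ⟨i, rfl⟩ := hf
        exact h3 i
      | zero => rfl
      | add f g _ _ hf hg =>
        have e1 : f (fun l => e (I l)) = 0 := by
          by_contra h5
          exact h5 (hf h5)
        have e2 : g (fun l => e (I l)) = 0 := by
          by_contra h5
          exact h5 (hg h5)
        rw [_root_.add_apply, e1, e2, add_zero]
      | smul x f _ hf =>
        have e1 : f (fun l => e (I l)) = 0 := by
          by_contra h5
          exact h5 (hf h5)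
        rw [_root_.smul_apply, e1, smul_zero]
  · intro n φ hn hφ μ _ c
    have h1 : ∀ i, bcm (Ω := Ω) b (cf c φ i) = 0 := by
      intro i
      refine Basis.ext_multilinear (fun _ => e) fun I => ?_
      rw [_root_.zero_apply]
      by_contra h2
      have h3 := hkey φ hφ c i I h2
      -- the number of variables is even
      have h4 : n = ∑ y, (Finset.univ.filter (fun l => I l = y)).card := by
        rw [← Finset.card_eq_sum_card_fiberwise (fun x _ => Finset.mem_coe.2 (Finset.mem_univ _)),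
          Finset.card_univ, Fintype.card_fin]
      have h5 : Even (∑ y, (Finset.univ.filter (fun l => I l = y)).card) := by
        have h6 : ∑ y, (((Finset.univ.filter (fun l => I l = y)).card : ℕ) : ZMod 2) = 0 := by
          refine Finset.sum_involution (fun y _ => bar y) ?_ ?_ (fun y _ => Finset.mem_univ _) ?_
          · intro y _
            rw [← h3 y, ← two_mul]
            have h7 : (2 : ZMod 2) = 0 := rfl
            rw [h7, zero_mul]
          · intro y _ _
            exact bar_ne y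
          · intro y _
            exact bar_bar y
        rw [← Nat.cast_sum] at h6
        exact (ZMod.natCast_eq_zero_iff_even).1 h6
      rw [← h4] at h5
      exact (Nat.not_even_iff_odd.2 hn) h5
    ext v
    rw [← sum_cf c φ v, _root_.zero_apply]
    refine Finset.sum_eq_zero fun i _ => ?_
    have h2 := bcm_one (Ω := Ω) b (cf c φ i) v
    rw [h1, _root_.zero_apply] at h2
    have h3 : cf c φ i v = 0 := by
      apply (algebraMap k Ω).injective
      rw [← h2, map_zero]
    rw [h3, zero_smul]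

end

end Pool.Agent.V5helper90.GT
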