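import Mathlib
import Pool.Agent.V5helper90.GT.Rel
import Pool.Agent.V5helper90.GT.Val
import Pool.Agent.V5helper90.GT.Defs4
import Pool.Agent.R401.Iso

/-!
# The multi-indices of a Tate class with values in a representation are balanced
-/

set_option autoImplicit false

open Polynomial NumberField IntermediateField Module

namespace Pool.Agent.V5helper90.GT

open Pool.Agent.W518.DN Pool.Agent.V5helper90.NS Pool.Agent.H204R3.GP Pool.Agent.H204R3.SP
  TensorProduct

/-- An eigenvalue of a power of an endomorphism, in terms of the complex roots of a polynomial that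
annihilates the endomorphism. -/
theorem exists_root_pow {Ω : Type*} [Field Ω] {U : Type*} [AddCommGroup U] [Module Ω U]
    (T : Module.End Ω U) (F : Polynomial Ω) (hF : aeval T F = 0) (θ : Ω →+* ℂ) {M : ℕ} {c : Ω} {w : U}
    (hw : w ≠ 0) (hT : (T ^ M) w = c • w) : ∃ x : ℂ, eval x (F.map θ) = 0 ∧ x ^ M = θ c := by
  let _ := θ.toAlgebra
  by_contra hno
  have hcop : IsCoprime F (X ^ M - C c) := by
    rw [Polynomial.isCoprime_iff_aeval_ne_zero_of_isAlgClosed Ω ℂ]
    intro x
    by_contra h1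
    rw [not_or, not_not, not_not] at h1
    apply hno
    refine ⟨x, ?_, ?_⟩
    · rw [eval_map]
      exact h1.1
    · have h2 := h1.2
      rw [map_sub, map_pow, aeval_X, aeval_C, sub_eq_zero] at h2
      exact h2
  obtain ⟨A, B, hAB⟩ := hcop
  apply hw
  have h1 := congrArg (fun Q => aeval T Q w) hAB
  simp only [map_add, map_mul, map_sub, map_pow, aeval_X, aeval_C, hF, mul_zero, zero_add,
    map_one, Module.End.mul_apply, LinearMap.sub_apply, Module.algebraMap_end_apply,
    Module.End.one_apply, hT, sub_self, map_zero] at h1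
  exact h1.symm

/-- The base change of a polynomial relation. -/
theorem aeval_bcr {k : Type*} [Field k] {Ω : Type*} [Field Ω] [Algebra k Ω] {W Γ : Type*}
    [AddCommGroup W] [Module k W] [Group Γ] (σ : Representation k Γ W) (γ : Γ) (F : k[X])
    (hF : aeval (σ γ) F = 0) : aeval (bcr σ Ω γ) (F.map (algebraMap k Ω)) = 0 := by
  rw [aeval_map_algebraMap]
  have h1 : bcr σ Ω γ = Module.End.baseChangeHom k Ω W (σ γ) := rfl
  rw [h1, Polynomial.aeval_algHom_apply, hF, map_zero]

theorem aeval_root {κ : Type} {P : κ → ℤ[X]} {i : κ} {z : ℂ} :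
    aeval z (P i) = 0 ↔ Rt P i z := by
  unfold Rt
  rw [IsRoot.def, eval_map, aeval_def]
  rfl

theorem hrel_of {κ : Type} [Fintype κ] {p a : ℕ} [hp : Fact p.Prime] {g : κ → ℕ} (hg : ∀ i, 1 ≤ g i)
    {P : κ → ℤ[X]} {L₀ : IntermediateField ℚ ℂ} (h : OverNice L₀ p a g P)
    {F : κ → Type} [∀ i, Field (F i)] [∀ i, NumberField (F i)] [∀ i, IsCMField (F i)]
    {π : ∀ i, F i} (hπ : ∀ i, ((P i).map (Int.castRingHom (F i))).IsRoot (π i))
    (hw : ∀ i, π i * IsCMField.complexConj (F i) (π i) = (p : F i) ^ a)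
    {L : Type} [Field L] [NumberField L] [IsGalois ℚ L] (hinj : Function.Injective (val π (L := L)))
    {ℓ : ℕ} [Fact ℓ.Prime] {W Γ : Type} [AddCommGroup W] [Module ℚ_[ℓ] W] [Group Γ]
    (σ : Representation ℚ_[ℓ] Γ W) (γ : Γ) (f : ℚ[X])
    (hf : aeval (σ γ) (f.map (algebraMap ℚ ℚ_[ℓ])) = 0) (hfree : IsFree L₀ g P f)
    (Ω : IntermediateField ℚ_[ℓ] (AlgebraicClosure ℚ_[ℓ])) (jΩ : L →+* Ω) {κ' : Type}
    [Fintype κ'] (I : κ' → Σ i, (F i →+* L)) (M : ℕ) (w : Ω ⊗[ℚ_[ℓ]] W)
    (hM : 0 < M) (hw0 : w ≠ 0)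
    (hact : bcr σ Ω (γ ^ M) w = (∏ l, jΩ (val π (I l)) ^ M) • w) : Bal I := by
  classical
  obtain ⟨e⟩ := Pool.Agent.R401.Iso.exists_iso ℓ
  let θ : Ω →+* ℂ := (e : PadicAlgCl ℓ →+* ℂ).comp (algebraMap Ω (AlgebraicClosure ℚ_[ℓ]))
  let j : L →+* ℂ := θ.comp jΩ
  have h1 : aeval (bcr σ Ω γ) ((f.map (algebraMap ℚ ℚ_[ℓ])).map (algebraMap ℚ_[ℓ] Ω)) = 0 :=
    aeval_bcr σ γ _ hf
  have h2 : (bcr σ Ω γ ^ M) w = (∏ l, jΩ (val π (I l)) ^ M) • w := by
    rw [← map_pow]
    exact hact
  obtain ⟨x, hx, hxM⟩ := exists_root_pow (bcr σ Ω γ) _ h1 θ hw0 h2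
  have hx' : aeval x f = 0 := by
    rw [Polynomial.map_map, Polynomial.map_map] at hx
    rw [aeval_def, ← eval_map, ← hx]
    congr 1
    congr 1
    exact RingHom.ext_rat _ _
  have hrt : ∀ (ψ : Σ i, (F i →+* L)), Rt P ψ.1 (j (val π ψ)) := by
    rintro ⟨i, ψ⟩
    have h3 : (P i).map (Int.castRingHom ℂ) =
        ((P i).map (Int.castRingHom (F i))).map (j.comp ψ) := by
      rw [Polynomial.map_map]; congr 1; exact RingHom.ext_int _ _
    unfold Rt
    rw [h3]
    exact (hπ i).map
  have hne : ∀ (ψ : Σ i, (F i →+* L)), j (val π ψ) ≠ 0 := fun ψ =>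
    root_ne h.very.nice.flips hp.out (hrt ψ)
  let z : κ' → ℂ := fun l => j (val π (I l))
  have hrel : ∏ l, z l ^ M = x ^ M := by
    rw [hxM, map_prod]
    refine Finset.prod_congr rfl fun l _ => ?_
    rw [map_pow]
    rfl
  have hx0 : x ≠ 0 := by
    intro h3
    rw [h3, zero_pow hM.ne'] at hrel
    exact (Finset.prod_ne_zero_iff.2 fun l _ => pow_ne_zero M (hne (I l))) hrel
  have hjinj : ∀ y y' : (Σ i, (F i →+* L)), j (val π y) = j (val π y') ↔ y = y' := fun y y' =>
    ⟨fun h3 => hinj (j.injective h3), fun h3 => by rw [h3]⟩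
  have hbar : ∀ y : (Σ i, (F i →+* L)), j (val π (bar y)) = ((p ^ a : ℕ) : ℂ) / j (val π y) := by
    intro y
    rw [eq_div_iff (hne y), ← map_mul, mul_comm, val_bar hw y, map_pow, map_natCast]
    push_cast
    rfl
  have hcard : ∀ y, (Finset.univ.filter (fun l => I l = y)).card =
      (Finset.univ.filter (fun l => I l = bar y)).card := by
    intro y
    have h3 := balanced h z (fun l => ⟨_, hrt (I l)⟩) (E := {x : ℂ | aeval x f = 0})
      (fun τ r hr => by
        have h4 := Polynomial.aeval_algHom_apply (RingHom.toRatAlgHom τ) r f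
        have h5 : aeval r f = 0 := hr
        rw [h5, map_zero] at h4
        exact h4) hx' hx0 hM hrel (hg y.1) (hrt y) (by
        rcases hfree y.1 with h4 | h4
        · exact Or.inl h4
        · exact Or.inr (h4 x hx' hx0 _ (aeval_root.2 (hrt y))))
    have h4 : (Finset.univ.filter (fun l => I l = y)) =
        Finset.univ.filter fun l => z l = j (val π y) := by
      ext l
      simp only [Finset.mem_filter, Finset.mem_univ, true_and]
      exact (hjinj _ _).symm
    have h5 : (Finset.univ.filter (fun l => I l = bar y)) =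
        Finset.univ.filter fun l => z l = ((p ^ a : ℕ) : ℂ) / j (val π y) := by
      ext l
      simp only [Finset.mem_filter, Finset.mem_univ, true_and]
      rw [← hbar]
      exact (hjinj _ _).symm
    rw [h4, h5, h3]
  intro y
  convert hcard y using 2

end Pool.Agent.V5helper90.GT
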