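import Mathlib
import Pool.Agent.V5helper90.GT.Defs
import Pool.Agent.H204R3.GP.MTDefs

/-!
# The Künneth formula for Tate classes on `A × Z`: definition
-/

set_option autoImplicit false

namespace Pool.Agent.V5helper90.GT

open Pool.Agent.H204R3.GP

/-- **The Künneth formula for the Tate classes of `A` with values in `W`.** `H = H_1(A, ℚ)`, `T` is the
tangent space of the abelian variety `A` at the origin and `per : H → T` the inclusion, `comp : H → V`
is the comparison map to the rational Tate module, `ρ` the action of the Galois group on `V`, `χ` the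
cyclotomic character and `W` any representation. Every Tate class with values in `W`, on the tensor
powers of `V`, is a linear combination of products of a Hodge class `ψ₀` of `A`, which is itself a product
of Hodge classes of degree two (with image `ψ` under the comparison), and of a Tate class `w` in `W`. -/
def KunnethTate {k V W Γ H T : Type*} [Field k] [CharZero k] [AddCommGroup V] [Module k V]
    [AddCommGroup W] [Module k W] [Group Γ] [AddCommGroup H] [Module ℚ H] [AddCommGroup T]
    [Module ℂ T] (per : H →+ T) (comp : H →+ V) (ρ : Representation k Γ V) (χ : Γ →* k)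
    (σ : Representation k Γ W) : Prop :=
  ∀ (n : ℕ) (φ : MultilinearMap k (fun _ : Fin n => V) W), IsTateValued ρ σ φ →
    φ ∈ Submodule.span k {φ' : MultilinearMap k (fun _ : Fin n => V) W |
      ∃ (m : ℕ) (τ : Fin n ≃ Fin m × Fin 2)
        (ψ₀ : MultilinearMap ℚ (fun _ : Fin m × Fin 2 => H) ℚ)
        (ψ : MultilinearMap k (fun _ : Fin m × Fin 2 => V) k) (w : W),
        IsHodgeTensor per ψ₀ ∧ IsProductOfHodgeBilinear per ψ₀ ∧ Compares comp ψ ψ₀ ∧
        IsTateVector σ χ m w ∧ ∀ v, φ' v = ψ (fun l => v (τ.symm l)) • w}

end Pool.Agent.V5helper90.GT
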