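import Mathlib
import Pool.Agent.V5helper90.GT.Val
import Pool.Agent.V5helper90.GT.Defs2
import Pool.Agent.H204R3.GP.MT

/-!
# The Künneth formula for Tate classes, from the coordinates
-/

set_option autoImplicit false
set_option linter.unusedSectionVars false

namespace Pool.Agent.V5helper90.GT

open Module Pool.Agent.H204R3.CM Pool.Agent.H204R3.SP Pool.Agent.H204R3.GP

noncomputable section

variable {k V W Γ : Type*} [Field k] [CharZero k] [AddCommGroup V] [Module k V]
  [FiniteDimensional k V] [AddCommGroup W] [Module k W] [Group Γ]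
  (ρ : Representation k Γ V) (χ : Γ →* k) (σ : Representation k Γ W)

theorem pt_tate {m : ℕ} {ψ : MultilinearMap k (fun _ : Fin m × Fin 2 => V) k}
    (h : ψ ∈ PT ρ χ m) : IsTate ρ χ m ψ := by
  obtain ⟨τ, B, hB, rfl⟩ := h
  choose Δ hΔ hB using hB
  refine ⟨⨅ l, Δ l, Subgroup.finiteIndex_iInf hΔ, fun s hs v => ?_⟩
  rw [mmG_apply, mmG_apply]
  rw [Finset.prod_congr rfl (fun l _ => hB l s ((Subgroup.mem_iInf.1 hs) l) _ _),
    Finset.prod_mul_distrib, Finset.prod_const, Finset.card_univ, Fintype.card_fin]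

/-- The coefficients of the products of Tate forms are Tate vectors. -/
theorem kunneth_of {m : ℕ} (φ : MultilinearMap k (fun _ : Fin m × Fin 2 => V) W)
    (hφ : IsTateValued ρ σ φ) {μ : Type} [Fintype μ] (c : Basis μ k W)
    (h : ∀ i, cf c φ i ∈ Submodule.span k (PT ρ χ m)) :
    φ ∈ Submodule.span k {φ' : MultilinearMap k (fun _ : Fin m × Fin 2 => V) W |
      ∃ ψ ∈ PT ρ χ m, ∃ w : W, IsTateVector σ χ m w ∧ φ' = ψ.smulRight w} := by
  classical
  obtain ⟨S, hS, hspan, hli⟩ := exists_linearIndependent k (PT ρ χ m)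
  have hfin : Finite S := hli.finite
  let _ : Fintype S := Fintype.ofFinite S
  have h1 : ∀ i, ∃ a : S → k, ∑ ψ, a ψ • (ψ : MultilinearMap k (fun _ : Fin m × Fin 2 => V) k) =
      cf c φ i := by
    intro i
    rw [← Submodule.mem_span_range_iff_exists_fun k, Subtype.range_coe, hspan]
    exact h i
  choose a ha using h1
  let w : S → W := fun ψ => ∑ i, a i ψ • c i
  have hφv : ∀ v, φ v = ∑ ψ : S, ψ.1 v • w ψ := by
    intro v
    rw [← sum_cf c φ v]
    have h2 : ∀ i, cf c φ i v • c i = ∑ ψ : S, (ψ.1 v * a i ψ) • c i := by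
      intro i
      rw [← ha i, _root_.sum_apply, ← Finset.sum_smul]
      congr 1
      refine Finset.sum_congr rfl fun ψ _ => ?_
      rw [_root_.smul_apply, smul_eq_mul, mul_comm]
    rw [Finset.sum_congr rfl (fun i _ => h2 i), Finset.sum_comm]
    refine Finset.sum_congr rfl fun ψ _ => ?_
    rw [Finset.smul_sum]
    exact Finset.sum_congr rfl fun i _ => (smul_smul _ _ _).symm
  have hsum : φ = ∑ ψ : S, ψ.1.smulRight (w ψ) := by
    ext v
    rw [hφv, _root_.sum_apply]
    rfl
  obtain ⟨Δ, hΔ, hφ⟩ := hφ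
  choose Δψ hΔψ hψ using fun ψ : S => pt_tate ρ χ (hS ψ.2)
  have htate : ∀ ψ : S, IsTateVector σ χ m (w ψ) := by
    intro ψ₁
    have _ := hΔ
    have _ : (⨅ ψ, Δψ ψ).FiniteIndex := Subgroup.finiteIndex_iInf hΔψ
    refine ⟨Δ ⊓ ⨅ ψ, Δψ ψ, inferInstance, fun s hs => ?_⟩
    have hs1 := (Subgroup.mem_inf.1 hs).1
    have hs2 := fun ψ => (Subgroup.mem_iInf.1 (Subgroup.mem_inf.1 hs).2) ψ
    have h3 : ∀ v, ∑ ψ : S, ψ.1 v • (σ s (w ψ) - χ s ^ m • w ψ) = 0 := by
      intro v
      have h4 := hφ s hs1 v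
      rw [hφv, hφv, map_sum] at h4
      simp only [smul_sub, Finset.sum_sub_distrib]
      rw [sub_eq_zero]
      have h5 : ∀ ψ : S, ψ.1 (fun l => ρ s (v l)) • w ψ = ψ.1 v • χ s ^ m • w ψ := by
        intro ψ
        rw [hψ ψ s (hs2 ψ), smul_smul, mul_comm]
      rw [← Finset.sum_congr rfl (fun ψ _ => h5 ψ), h4]
      exact Finset.sum_congr rfl fun ψ _ => (map_smul _ _ _).symm
    have h6 : ∀ i, c.coord i (σ s (w ψ₁) - χ s ^ m • w ψ₁) = 0 := by
      intro i
      have h7 : ∑ ψ : S, (c.coord i (σ s (w ψ) - χ s ^ m • w ψ)) •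
          (ψ : MultilinearMap k (fun _ : Fin m × Fin 2 => V) k) = 0 := by
        ext v
        have h8 := congrArg (c.coord i) (h3 v)
        rw [map_sum, map_zero] at h8
        rw [_root_.sum_apply, _root_.zero_apply, ← h8]
        refine Finset.sum_congr rfl fun ψ _ => ?_
        rw [_root_.smul_apply, map_smul, smul_eq_mul, smul_eq_mul, mul_comm]
      exact Fintype.linearIndependent_iff.1 hli _ h7 ψ₁
    have h9 : c.repr (σ s (w ψ₁) - χ s ^ m • w ψ₁) = 0 := by
      ext i
      exact h6 i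
    rw [← sub_eq_zero]
    exact (LinearEquiv.map_eq_zero_iff c.repr).1 h9
  rw [hsum]
  exact Submodule.sum_mem _ fun ψ _ => Submodule.subset_span ⟨ψ.1, hS ψ.2, w ψ, htate ψ, rfl⟩

variable {H T : Type*} [AddCommGroup H] [Module ℚ H] [AddCommGroup T] [Module ℂ T]

/-- The Künneth formula from the statements on the coordinates. -/
theorem kunnethTate_of (per : H →+ T) (comp : H →+ V) [FiniteDimensional k W]
    (ω : V →ₗ[k] V →ₗ[k] k) (hnd' : ∀ u, (∀ v, ω u v = 0) → u = 0)
    (hωρ : ∀ s u v, ω (ρ s u) (ρ s v) = χ s * ω u v)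
    (ω₀ : H →ₗ[ℚ] H →ₗ[ℚ] ℚ) (hω₀ : IsHodgeBilinear per ω₀)
    (hωω : ∀ x y, ω (comp x) (comp y) = ((ω₀ x y : ℚ) : k))
    (hF : FaltingsEnd per comp ρ)
    (h1 : ∀ {m : ℕ} (φ : MultilinearMap k (fun _ : Fin m × Fin 2 => V) W), IsTateValued ρ σ φ →
      ∀ {μ : Type} [Fintype μ] (c : Basis μ k W) (i : μ),
        cf c φ i ∈ Submodule.span k (PT ρ χ m))
    (h2 : ∀ {n : ℕ} (φ : MultilinearMap k (fun _ : Fin n => V) W), Odd n → IsTateValued ρ σ φ →
      ∀ {μ : Type} [Fintype μ] (_ : Basis μ k W), φ = 0) :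
    KunnethTate per comp ρ χ σ := by
  classical
  intro n φ hφ
  let c := Module.finBasis k W
  rcases Nat.even_or_odd n with hn | hn
  · obtain ⟨m, hm⟩ := hn
    let τ : Fin n ≃ Fin m × Fin 2 := Fintype.equivOfCardEq (by simp [hm, mul_two])
    have h3 : IsTateValued ρ σ (φ.domDomCongr τ) := by
      obtain ⟨Δ, hΔ, h⟩ := hφ
      exact ⟨Δ, hΔ, fun s hs v => h s hs fun l => v (τ l)⟩
    have h4 := kunneth_of ρ χ σ (φ.domDomCongr τ) h3 c (h1 _ h3 c)
    have h5 : ∀ φ₁ ∈ Submodule.span k {φ' : MultilinearMap k (fun _ : Fin m × Fin 2 => V) W |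
      ∃ ψ ∈ PT ρ χ m, ∃ w : W, IsTateVector σ χ m w ∧ φ' = ψ.smulRight w},
      φ₁.domDomCongr τ.symm ∈ Submodule.span k {φ' : MultilinearMap k (fun _ : Fin n => V) W |
      ∃ (m : ℕ) (τ : Fin n ≃ Fin m × Fin 2)
        (ψ₀ : MultilinearMap ℚ (fun _ : Fin m × Fin 2 => H) ℚ)
        (ψ : MultilinearMap k (fun _ : Fin m × Fin 2 => V) k) (w : W),
        IsHodgeTensor per ψ₀ ∧ IsProductOfHodgeBilinear per ψ₀ ∧ Compares comp ψ ψ₀ ∧
        IsTateVector σ χ m w ∧ ∀ v, φ' v = ψ (fun l => v (τ.symm l)) • w} := by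
      intro φ₁ hφ₁
      induction hφ₁ using Submodule.span_induction with
      | mem φ₁ hφ₁ =>
        obtain ⟨ψ, hψ, w, hw, rfl⟩ := hφ₁
        obtain ⟨τ', B, hB, rfl⟩ := hψ
        have h6 := mmG_mem_span τ' (HB (k := k) per comp) B
          (fun l => tate2_mem per comp ρ χ ω hnd' hωρ ω₀ hω₀ hωω hF (B l) (hB l))
        have h7 : ∀ ψ₁ ∈ Submodule.span k {φ | ∃ B' : Fin m → (V →ₗ[k] V →ₗ[k] k),
            (∀ l, B' l ∈ HB (k := k) per comp) ∧ φ = mmG τ' B'},
            (ψ₁.smulRight w).domDomCongr τ.symm ∈ Submodule.span k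
            {φ' : MultilinearMap k (fun _ : Fin n => V) W |
              ∃ (m : ℕ) (τ : Fin n ≃ Fin m × Fin 2)
              (ψ₀ : MultilinearMap ℚ (fun _ : Fin m × Fin 2 => H) ℚ)
              (ψ : MultilinearMap k (fun _ : Fin m × Fin 2 => V) k) (w : W),
              IsHodgeTensor per ψ₀ ∧ IsProductOfHodgeBilinear per ψ₀ ∧ Compares comp ψ ψ₀ ∧
              IsTateVector σ χ m w ∧ ∀ v, φ' v = ψ (fun l => v (τ.symm l)) • w} := by
          intro ψ₁ hψ₁
          induction hψ₁ using Submodule.span_induction with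
          | mem ψ₁ hψ₁ =>
            obtain ⟨B', hB', rfl⟩ := hψ₁
            obtain ⟨ψ₀, g1, g2, g3⟩ := mm_good per comp τ' B' hB'
            exact Submodule.subset_span ⟨m, τ, ψ₀, mmG τ' B', w, g1, g2, g3, hw, fun v => rfl⟩
          | zero =>
            have e1 : ((0 : MultilinearMap k (fun _ : Fin m × Fin 2 => V) k).smulRight
                w).domDomCongr τ.symm = 0 := by
              ext v
              exact zero_smul k w
            rw [e1]
            exact Submodule.zero_mem _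
          | add x y _ _ hx hy =>
            have e1 : ((x + y).smulRight w).domDomCongr τ.symm =
                (x.smulRight w).domDomCongr τ.symm + (y.smulRight w).domDomCongr τ.symm := by
              ext v
              exact add_smul _ _ w
            rw [e1]
            exact Submodule.add_mem _ hx hy
          | smul r x _ hx =>
            have e1 : ((r • x).smulRight w).domDomCongr τ.symm =
                r • (x.smulRight w).domDomCongr τ.symm := by
              ext v
              exact mul_smul _ _ w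
            rw [e1]
            exact Submodule.smul_mem _ _ hx
        exact h7 _ h6
      | zero => exact Submodule.zero_mem _
      | add x y _ _ hx hy => exact Submodule.add_mem _ hx hy
      | smul r x _ hx => exact Submodule.smul_mem _ r hx
    have h6 := h5 _ h4
    have h7 : (φ.domDomCongr τ).domDomCongr τ.symm = φ := by
      ext v
      exact congrArg φ (funext fun i => congrArg v (by simp))
    rwa [h7] at h6
  · rw [h2 φ hn hφ c]
    exact Submodule.zero_mem _

end

end Pool.Agent.V5helper90.GT
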