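import Mathlib
import Pool.Agent.V5helper90.GT.Hrel
import Pool.Agent.V5helper90.GT.Tate
import Pool.Agent.V5helper90.NS.MT

/-!
# The Künneth formula for Tate classes, from one Frobenius element
-/

set_option autoImplicit false

open Polynomial NumberField IntermediateField Module

namespace Pool.Agent.V5helper90.GT

open Pool.Agent.W518.DN Pool.Agent.V5helper90.NS Pool.Agent.H204R3.GP Pool.Agent.H204R3.SP
  Pool.Agent.TH170.FT

section

variable {κ : Type} [Fintype κ] {p a : ℕ} [hp : Fact p.Prime] {g : κ → ℕ} {P : κ → ℤ[X]}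
  {L₀ : IntermediateField ℚ ℂ}

/-- The Künneth formula, in terms of the fields. -/
theorem kunneth_fields (hg : ∀ i, 1 ≤ g i) (h : OverNice L₀ p a g P)
    {K : κ → Type} [∀ i, Field (K i)] [∀ i, NumberField (K i)] [∀ i, IsCMField (K i)]
    (π : ∀ i, K i) (hπ : ∀ i, ((P i).map (Int.castRingHom (K i))).IsRoot (π i))
    (hext : ∀ i (φ ψ : K i →+* ℂ), φ (π i) = ψ (π i) → φ = ψ)
    (hfin : ∀ i, 2 * g i ≤ finrank ℚ (K i))
    {ℓ : ℕ} [Fact ℓ.Prime] {H T V W Γ : Type} [AddCommGroup H] [Module ℚ H]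
    [AddCommGroup T] [Module ℂ T] [AddCommGroup V] [Module ℚ_[ℓ] V] [FiniteDimensional ℚ_[ℓ] V]
    [AddCommGroup W] [Module ℚ_[ℓ] W] [FiniteDimensional ℚ_[ℓ] W]
    [Group Γ] {per : H →+ T} {ω₀ : H →ₗ[ℚ] H →ₗ[ℚ] ℚ} {comp : H →+ V}
    {ρ : Representation ℚ_[ℓ] Γ V} {χ : Γ →* ℚ_[ℓ]} {ω : V →ₗ[ℚ_[ℓ]] V →ₗ[ℚ_[ℓ]] ℚ_[ℓ]}
    (hR : IsRealization per ω₀ comp ρ χ ω) (σ : Representation ℚ_[ℓ] Γ W) {γ : Γ}
    (hγ1 : χ γ = ((p ^ a : ℕ) : ℚ_[ℓ]))
    (hγ2 : (ρ γ).charpoly = ∏ i, (P i).map (Int.castRingHom ℚ_[ℓ])) {f : ℚ[X]}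
    (hf : aeval (σ γ) (f.map (algebraMap ℚ ℚ_[ℓ])) = 0) (hfree : IsFree L₀ g P f) :
    KunnethTate per comp ρ χ σ := by
  classical
  have hv := h.very
  have hang := angle hv.nice hv.pow h.inj π hπ hext
  have hgen : ∀ i, IntermediateField.adjoin ℚ {π i} = ⊤ := fun i => adjoin_top (hext i)
  have hmin : ∀ i, minpoly ℚ (π i) = (P i).map (Int.castRingHom ℚ) := fun i =>
    minpoly_eq hv.nice.flips (hπ i) (hgen i) (hfin i)
  have hroot : ∀ i (φ : K i →+* ℂ), ((P i).map (Int.castRingHom ℂ)).IsRoot (φ (π i)) := by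
    intro i φ
    have h2 : (P i).map (Int.castRingHom ℂ) = ((P i).map (Int.castRingHom (K i))).map φ := by
      rw [Polynomial.map_map]; congr 1; exact RingHom.ext_int _ _
    rw [h2]
    exact (hπ i).map
  have hw : ∀ i, π i * IsCMField.complexConj (K i) (π i) = (p : K i) ^ a := by
    intro i
    obtain ⟨φ⟩ : Nonempty (K i →+* ℂ) := inferInstance
    apply φ.injective
    rw [map_mul, IsCMField.complexEmbedding_complexConj, map_pow, map_natCast,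
      ← hv.nice.conj (hroot i φ), mul_div_cancel₀ _ (root_ne hv.nice.flips hp.out (hroot i φ))]
    push_cast
    rfl
  obtain ⟨L, hL1, hL2, j, hj⟩ := Pool.Agent.H204R3.CM.exists_galois K
  have hneat := Pool.Agent.Y137.MV.neat_of_angle j hang
  have hanti : ∀ u v, ω u v = - ω v u := by
    intro u v
    have h1 := hR.alternating (u + v)
    simp only [map_add, LinearMap.add_apply, hR.alternating, zero_add, add_zero] at h1
    linear_combination h1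
  have hnd' : ∀ u, (∀ v, ω u v = 0) → u = 0 := by
    intro u hu
    apply hR.nondegenerate
    intro v
    rw [hanti, hu, neg_zero]
  have hnd : ∀ u, (∀ v, ω v u = 0) → u = 0 := hR.nondegenerate
  have hss' : ∀ Δ : Subgroup Γ, Δ.FiniteIndex → SemiUnder (ρ '' (Δ : Set Γ)) := by
    intro Δ hΔ U hU
    obtain ⟨U', h1, h2⟩ := hR.semisimple Δ hΔ U (fun s hs u hu => hU _ ⟨s, hs, rfl⟩ u hu)
    refine ⟨U', ?_, h2⟩
    rintro _ ⟨s, hs, rfl⟩ u hu
    exact h1 s hs u hu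
  have hinjv := val_inj_of_neat (L := L) hw hneat
  obtain ⟨h1, h2⟩ := valued_mem (k := ℚ_[ℓ]) hgen hw j hj hneat ρ χ ω hR.alternating hnd
    hR.equivariant hss' γ (by rw [hγ1]; push_cast; rfl)
    (by
      rw [hγ2]
      refine Finset.prod_congr rfl fun i _ => ?_
      rw [hmin i, Polynomial.map_map]
      congr 1) σ
    (fun Ω jΩ κ' _ I M w _ hM hw0 hact =>
      hrel_of hg h hπ hw hinjv σ γ f hf hfree Ω jΩ I M w hM hw0 hact)
  exact kunnethTate_of ρ χ σ per comp ω hnd' hR.equivariant ω₀ hR.hodge hR.compatible hR.faltings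
    h1 h2

theorem kunneth_of_nice (hg : ∀ i, 1 ≤ g i) (h : OverNice L₀ p a g P)
    {ℓ : ℕ} [Fact ℓ.Prime] {H T V W Γ : Type} [AddCommGroup H] [Module ℚ H]
    [AddCommGroup T] [Module ℂ T] [AddCommGroup V] [Module ℚ_[ℓ] V] [FiniteDimensional ℚ_[ℓ] V]
    [AddCommGroup W] [Module ℚ_[ℓ] W] [FiniteDimensional ℚ_[ℓ] W]
    [Group Γ] {per : H →+ T} {ω₀ : H →ₗ[ℚ] H →ₗ[ℚ] ℚ} {comp : H →+ V}
    {ρ : Representation ℚ_[ℓ] Γ V} {χ : Γ →* ℚ_[ℓ]} {ω : V →ₗ[ℚ_[ℓ]] V →ₗ[ℚ_[ℓ]] ℚ_[ℓ]}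
    (hR : IsRealization per ω₀ comp ρ χ ω) (σ : Representation ℚ_[ℓ] Γ W) {γ : Γ}
    (hγ1 : χ γ = ((p ^ a : ℕ) : ℚ_[ℓ]))
    (hγ2 : (ρ γ).charpoly = ∏ i, (P i).map (Int.castRingHom ℚ_[ℓ])) {f : ℚ[X]}
    (hf : aeval (σ γ) (f.map (algebraMap ℚ ℚ_[ℓ])) = 0) (hfree : IsFree L₀ g P f) :
    KunnethTate per comp ρ χ σ := by
  have hv := h.very
  choose E hE1 hE2 hE3 z hz using fun i => exists_cm hv.nice i (hg i)
  have hCM : ∀ i, IsCMField ℚ⟮z i⟯ := fun i => isCM hv.nice (hz i)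
  exact kunneth_fields hg h (K := fun i => ℚ⟮z i⟯) (fun i => AdjoinSimple.gen ℚ (z i))
    (fun i => gen_root (hz i)) (fun i φ ψ h1 => ext_gen h1)
    (fun i => finrank_ge hv.nice (hz i)) hR σ hγ1 hγ2 hf hfree

end

end Pool.Agent.V5helper90.GT
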