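import Mathlib
import Pool.Agent.V5helper90.GT.Defs3

/-!
# Sets of small angle rank
-/

set_option autoImplicit false

namespace Pool.Agent.V5helper90.GT

open Module

/-- The angle rank is zero if the elements of the set have powers in the field. -/
theorem angleRank_of_field {L₀ : IntermediateField ℚ ℂ} {E : Set ℂ}
    (hE : ∀ r ∈ E, (starRingEnd ℂ) r ∈ E) (h : ∀ r ∈ E, ∃ m : ℕ, 0 < m ∧ r ^ m ∈ L₀) {g : ℕ}
    (hg : 1 ≤ g) : AngleRankLT L₀ E g := by
  classical
  have key : ∀ c ∈ Subgroup.closure {u : ℂˣ | ∃ r ∈ E, (u : ℂ) = r / (starRingEnd ℂ) r},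
      ∃ m : ℕ, 0 < m ∧ (c : ℂ) ^ m ∈ L₀ := by
    intro c hc
    induction hc using Subgroup.closure_induction with
    | mem u hu =>
      obtain ⟨r, hr, hu⟩ := hu
      obtain ⟨m, hm, h1⟩ := h r hr
      obtain ⟨m', hm', h2⟩ := h _ (hE r hr)
      refine ⟨m * m', Nat.mul_pos hm hm', ?_⟩
      rw [hu, div_pow, pow_mul, mul_comm m m', pow_mul _ m' m]
      exact div_mem (pow_mem h1 _) (pow_mem h2 _)
    | one => exact ⟨1, one_pos, by simp⟩
    | mul u v _ _ hu hv =>
      obtain ⟨m, hm, h1⟩ := hu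
      obtain ⟨m', hm', h2⟩ := hv
      refine ⟨m * m', Nat.mul_pos hm hm', ?_⟩
      rw [Units.val_mul, mul_pow, pow_mul, mul_comm m m', pow_mul _ m' m]
      exact mul_mem (pow_mem h1 _) (pow_mem h2 _)
    | inv u _ hu =>
      obtain ⟨m, hm, h1⟩ := hu
      refine ⟨m, hm, ?_⟩
      rw [Units.val_inv_eq_inv_val, inv_pow]
      exact inv_mem h1
  intro c hc
  obtain ⟨m, hm, h1⟩ := key _ (hc ⟨0, hg⟩)
  refine ⟨Pi.single ⟨0, hg⟩ (m : ℤ), ?_, ?_⟩
  · intro h2
    have h3 := congrFun h2 ⟨0, hg⟩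
    rw [Pi.single_eq_same, Pi.zero_apply] at h3
    omega
  · rw [Finset.prod_eq_single_of_mem ⟨0, hg⟩ (Finset.mem_univ _) (fun j _ hj => by
      rw [Pi.single_eq_of_ne hj, zpow_zero]), Pi.single_eq_same, zpow_natCast,
      Units.val_pow_eq_pow_val]
    exact h1

/-- The angle rank of a small set. -/
theorem angleRank_of_card {L₀ : IntermediateField ℚ ℂ} {E : Set ℂ}
    (hE : ∀ r ∈ E, (starRingEnd ℂ) r ∈ E) (hfin : E.Finite) {g : ℕ} (hg : E.ncard < 2 * g) :
    AngleRankLT L₀ E g := by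
  classical
  let E0 : Finset ℂ := hfin.toFinset
  have hE0 : ∀ x, x ∈ E0 ↔ x ∈ E := fun x => Set.Finite.mem_toFinset _
  let E1 : Finset ℂ := E0.filter fun x => 0 < x.im
  have hE1 : ∀ x, x ∈ E1 ↔ x ∈ E ∧ 0 < x.im := by
    intro x
    rw [Finset.mem_filter, hE0]
  have hcard : E1.card < g := by
    let E2 : Finset ℂ := E1.image (starRingEnd ℂ)
    have h1 : E2.card = E1.card := Finset.card_image_of_injective _ (starRingEnd ℂ).injective
    have h2 : Disjoint E1 E2 := by
      rw [Finset.disjoint_left]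
      intro x hx hx2
      obtain ⟨y, hy, rfl⟩ := Finset.mem_image.1 hx2
      have h3 := ((hE1 _).1 hx).2
      have h4 := ((hE1 _).1 hy).2
      rw [Complex.conj_im] at h3
      linarith
    have h3 : E1 ∪ E2 ⊆ E0 := by
      intro x hx
      rcases Finset.mem_union.1 hx with h4 | h4
      · exact (hE0 x).2 ((hE1 x).1 h4).1
      · obtain ⟨y, hy, rfl⟩ := Finset.mem_image.1 h4
        exact (hE0 _).2 (hE _ ((hE1 y).1 hy).1)
    have h4 := Finset.card_le_card h3
    rw [Finset.card_union_of_disjoint h2, h1] at h4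
    have h5 : E0.card = E.ncard := (Set.ncard_eq_toFinset_card E hfin).symm
    omega
  have hne : ∀ x : E1, (x : ℂ) ≠ 0 := by
    intro x h1
    have h2 := ((hE1 _).1 x.2).2
    rw [h1, Complex.zero_im] at h2
    exact lt_irrefl _ h2
  have hne' : ∀ x : E1, (x : ℂ) / (starRingEnd ℂ) x ≠ 0 := fun x =>
    div_ne_zero (hne x) ((map_ne_zero _).2 (hne x))
  let f : E1 → ℂˣ := fun x => Units.mk0 _ (hne' x)
  have hcl : Subgroup.closure {u : ℂˣ | ∃ r ∈ E, (u : ℂ) = r / (starRingEnd ℂ) r} ≤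
      Subgroup.closure (Set.range f) := by
    rw [Subgroup.closure_le]
    rintro u ⟨r, hr, hu⟩
    rcases lt_trichotomy r.im 0 with h1 | h1 | h1
    · have h2 : (starRingEnd ℂ) r ∈ E1 := (hE1 _).2 ⟨hE r hr, by rw [Complex.conj_im]; linarith⟩
      have h3 : u = (f ⟨_, h2⟩)⁻¹ := by
        refine Units.ext ?_
        rw [hu, Units.val_inv_eq_inv_val]
        change _ = ((starRingEnd ℂ) r / (starRingEnd ℂ) ((starRingEnd ℂ) r))⁻¹
        rw [Complex.conj_conj, inv_div]
      rw [SetLike.mem_coe, h3]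
      exact inv_mem (Subgroup.subset_closure ⟨_, rfl⟩)
    · have h3 : u = 1 := by
        refine Units.ext ?_
        have h4 : (starRingEnd ℂ) r = r := Complex.conj_eq_iff_im.2 h1
        have h5 : r ≠ 0 := by
          intro h6
          rw [h6, zero_div] at hu
          exact u.ne_zero hu
        rw [hu, h4, div_self h5, Units.val_one]
      rw [SetLike.mem_coe, h3]
      exact one_mem _
    · have h2 : r ∈ E1 := (hE1 _).2 ⟨hr, h1⟩
      have h3 : u = f ⟨_, h2⟩ := Units.ext hu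
      rw [SetLike.mem_coe, h3]
      exact Subgroup.subset_closure ⟨_, rfl⟩
  intro c hc
  choose A hA using fun j => Subgroup.exists_of_mem_closure_range f (c j) (hcl (hc j))
  have hdep : ¬ LinearIndependent ℤ A := by
    intro h1
    have h2 := h1.fintype_card_le_finrank
    rw [Fintype.card_fin, Module.finrank_fintype_fun_eq_card, Fintype.card_coe] at h2
    omega
  obtain ⟨n, hn, j, hj⟩ := Fintype.not_linearIndependent_iff.1 hdep
  refine ⟨n, fun h1 => hj (by rw [h1]; rfl), ?_⟩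
  have h1 : ∏ j, c j ^ n j = 1 := by
    have h2 : ∀ j, c j ^ n j = ∏ i, f i ^ (n j * A j i) := by
      intro j
      rw [hA j, ← Finset.prod_zpow]
      refine Finset.prod_congr rfl fun i _ => ?_
      rw [← zpow_mul, mul_comm]
    rw [Finset.prod_congr rfl (fun j _ => h2 j), Finset.prod_comm]
    refine Finset.prod_eq_one fun i _ => ?_
    have h3 : ∏ j, f i ^ (n j * A j i) = f i ^ ∑ j, n j * A j i := by
      have h4 : ∀ s : Finset (Fin g), ∏ j ∈ s, f i ^ (n j * A j i) =
          f i ^ ∑ j ∈ s, n j * A j i := by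
        intro s
        induction s using Finset.induction_on with
        | empty => simp
        | insert a s ha ih => rw [Finset.prod_insert ha, Finset.sum_insert ha, zpow_add, ih]
      exact h4 _
    rw [h3]
    have h4 := congrFun hn i
    rw [Finset.sum_apply] at h4
    simp only [Pi.smul_apply, smul_eq_mul, Pi.zero_apply] at h4
    rw [h4, zpow_zero]
  rw [h1, Units.val_one]
  exact one_mem L₀

/-- The angle rank of a set in the group generated by another set. -/
theorem angleRank_mono {L₀ : IntermediateField ℚ ℂ} {E E' : Set ℂ}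
    (h : ∀ u : ℂˣ, (u : ℂ) ∈ E' → u ∈ Subgroup.closure {v : ℂˣ | (v : ℂ) ∈ E}) {g : ℕ}
    (hE : AngleRankLT L₀ E g) : AngleRankLT L₀ E' g := by
  let δ : ℂˣ →* ℂˣ :=
    { toFun := fun u => u / Units.map (starRingEnd ℂ : ℂ →* ℂ) u
      map_one' := by rw [map_one, div_one]
      map_mul' := fun u v => by rw [map_mul, mul_div_mul_comm] }
  have hδ : ∀ u : ℂˣ, ((δ u : ℂˣ) : ℂ) = (u : ℂ) / (starRingEnd ℂ) (u : ℂ) := by
    intro u
    change ((u / Units.map (starRingEnd ℂ : ℂ →* ℂ) u : ℂˣ) : ℂ) = _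
    rw [Units.val_div_eq_div_val]
    rfl
  intro c hc
  refine hE c fun j => ?_
  have h1 : Subgroup.closure {u : ℂˣ | ∃ r ∈ E', (u : ℂ) = r / (starRingEnd ℂ) r} ≤
      Subgroup.closure {u : ℂˣ | ∃ r ∈ E, (u : ℂ) = r / (starRingEnd ℂ) r} := by
    rw [Subgroup.closure_le]
    rintro u ⟨r, hr, hu⟩
    have hr0 : r ≠ 0 := by
      intro h2
      rw [h2, zero_div] at hu
      exact u.ne_zero hu
    have h2 : u = δ (Units.mk0 r hr0) := Units.ext (by rw [hδ, hu]; rfl)
    have h3 : δ (Units.mk0 r hr0) ∈ (Subgroup.closure {v : ℂˣ | (v : ℂ) ∈ E}).map δ :=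
      Subgroup.mem_map_of_mem _ (h _ hr)
    rw [MonoidHom.map_closure] at h3
    rw [SetLike.mem_coe, h2]
    refine Subgroup.closure_mono ?_ h3
    rintro _ ⟨v, hv, rfl⟩
    exact ⟨v, hv, hδ v⟩
  exact h1 (hc j)

end Pool.Agent.V5helper90.GT
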